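import Pool.Agent.Run7.h323.OreRank

/-!
The engine: a filtered ring `B` over a left Ore domain `A` whose associated graded ring looks like
`T_A(V)/(Q)` with `V` of rank two and `Q` of rank one (nondegenerate) has no zero divisors.
-/

namespace Run7.h323

open Cardinal Module Submodule

universe u

structure Core {B : Type u} [Ring B] (A : Subring B) where
  E : ℕ → Submodule A B
  y : Fin 2 → B
  w : Fin 2 → B
  E_zero : E 0 = ⊥
  E_one : ∀ b, b ∈ E 1 ↔ b ∈ A
  E_mono : ∀ n, E n ≤ E (n + 1)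
  exhaust : ∀ b, ∃ n, b ∈ E n
  finite_E : ∀ n, Module.rank A (E n) < ℵ₀
  finrank_E : ∀ n, Module.finrank A (E (n + 1)) = Module.finrank A (E n) + (n + 1)
  mul_mem : ∀ m n a b, a ∈ E (m + 1) → b ∈ E (n + 1) → a * b ∈ E (m + n + 1)
  y_mem : ∀ i, y i ∈ E 2
  torsion_free : ∀ n (a : A) b, a ≠ 0 → (a : B) * b ∈ E n → b ∈ E n
  alpha : ∀ (a : A), ∃ c : Fin 2 → Fin 2 → A, ∀ k, (a : B) * y k - ∑ i, y i * (c i k : B) ∈ E 1
  beta : ∀ (a : A) (k : Fin 2), ∃ d : Fin 2 → A, y k * (a : B) - ∑ i, (d i : B) * y i ∈ E 1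
  left_indep : ∀ d : Fin 2 → A, ∑ i, (d i : B) * y i ∈ E 1 → d = 0
  nondeg : ∀ n r, r ∈ E (n + 1) → (∀ i, y i * r ∈ E (n + 1)) → r ∈ E n
  y_span_w : ∀ k, ∃ d : Fin 2 → A, y k - ∑ i, (d i : B) * w i ∈ E 1
  w_mem : ∀ i, w i ∈ E 2
  exact : ∀ n (u : Fin 2 → B), (∀ i, u i ∈ E (n + 1)) → ∑ i, y i * u i ∈ E (n + 1) →
    ∃ r ∈ E n, ∀ i, u i - w i * r ∈ E n
  twist : ∀ μ : A, ∃ l : A, ∃ c : Fin 2 → Fin 2 → A,
    (∀ k, (l : B) * y k - ∑ i, y i * (c i k : B) ∈ E 1) ∧
      ∀ m, w m * (μ : B) - ∑ i, (c m i : B) * w i ∈ E 1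

namespace Core

variable {B : Type u} [Ring B] {A : Subring B} (C : Core A)

/-- relative rank -/
noncomputable def nu (n : ℕ) (X : Submodule A B) : ℕ := Module.finrank A (X.map (C.E n).mkQ)

theorem mono {m n : ℕ} (h : m ≤ n) : C.E m ≤ C.E n :=
  monotone_nat_of_le_succ C.E_mono h

theorem mul_one_left {n : ℕ} {a b : B} (ha : a ∈ C.E 1) (hb : b ∈ C.E n) : a * b ∈ C.E n := by
  cases n with
  | zero => rw [C.E_zero, Submodule.mem_bot] at hb; rw [hb, mul_zero]; exact zero_mem _
  | succ n => have := C.mul_mem 0 n a b ha hb; rwa [Nat.zero_add] at this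

theorem mul_one_right {n : ℕ} {a b : B} (ha : a ∈ C.E 1) (hb : b ∈ C.E n) : b * a ∈ C.E n := by
  cases n with
  | zero => rw [C.E_zero, Submodule.mem_bot] at hb; rw [hb, zero_mul]; exact zero_mem _
  | succ n => have := C.mul_mem n 0 b a hb ha; rwa [Nat.add_zero] at this

theorem mul_two_left {n : ℕ} {a b : B} (ha : a ∈ C.E 2) (hb : b ∈ C.E n) : a * b ∈ C.E (n + 1) := by
  cases n with
  | zero => rw [C.E_zero, Submodule.mem_bot] at hb; rw [hb, mul_zero]; exact zero_mem _
  | succ n => have := C.mul_mem 1 n a b ha hb; rwa [Nat.add_comm 1 n] at this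

theorem coe_mem (a : A) : (a : B) ∈ C.E 1 := (C.E_one _).2 a.2

theorem smul_def' (a : A) (b : B) : a • b = (a : B) * b := rfl

theorem coe_mul_mem {n : ℕ} (a : A) {b : B} (hb : b ∈ C.E n) : (a : B) * b ∈ C.E n :=
  C.mul_one_left (C.coe_mem a) hb

theorem right_indep (c : Fin 2 → A) (h : ∑ i, C.y i * (c i : B) ∈ C.E 1) : c = 0 := by
  obtain ⟨r, hr, h1⟩ := C.exact 0 (fun i => (c i : B)) (fun i => C.coe_mem _) h
  rw [C.E_zero, Submodule.mem_bot] at hr
  funext i
  have := h1 i
  rw [hr, mul_zero, sub_zero, C.E_zero, Submodule.mem_bot] at this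
  exact_mod_cast this

/-- the correspondence in the key lemma -/
def Rel (n : ℕ) {p : ℕ} (x : Fin p → B) (f : Fin 2 × Fin p → A) (r : B) : Prop :=
  r ∈ C.E n ∧ ∃ g : Fin 2 → Fin p → A,
    (∀ k, ∑ i, (f (i, k) : B) * C.y i - ∑ i, C.y i * (g i k : B) ∈ C.E 1) ∧
    ∀ i, ∑ k, (g i k : B) * x k - C.w i * r ∈ C.E n

variable {C}

theorem Rel.add {n p : ℕ} {x : Fin p → B} {f f' : Fin 2 × Fin p → A} {r r' : B}
    (h : C.Rel n x f r) (h' : C.Rel n x f' r') : C.Rel n x (f + f') (r + r') := by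
  obtain ⟨hr, g, hg, hw⟩ := h
  obtain ⟨hr', g', hg', hw'⟩ := h'
  refine ⟨add_mem hr hr', g + g', fun k => ?_, fun i => ?_⟩
  · have := add_mem (hg k) (hg' k)
    convert this using 1
    simp only [Pi.add_apply, Subring.coe_add, add_mul, mul_add, Finset.sum_add_distrib]
    abel
  · have := add_mem (hw i) (hw' i)
    convert this using 1
    simp only [Pi.add_apply, Subring.coe_add, add_mul, mul_add, Finset.sum_add_distrib]
    abel

theorem Rel.neg {n p : ℕ} {x : Fin p → B} {f : Fin 2 × Fin p → A} {r : B}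
    (h : C.Rel n x f r) : C.Rel n x (-f) (-r) := by
  obtain ⟨hr, g, hg, hw⟩ := h
  refine ⟨neg_mem hr, -g, fun k => ?_, fun i => ?_⟩
  · have := neg_mem (hg k)
    convert this using 1
    simp only [Pi.neg_apply, NegMemClass.coe_neg, neg_mul, mul_neg, Finset.sum_neg_distrib]
    abel
  · have := neg_mem (hw i)
    convert this using 1
    simp only [Pi.neg_apply, NegMemClass.coe_neg, neg_mul, mul_neg, Finset.sum_neg_distrib]
    abel

theorem y_mul_mem_of_w {X : Submodule A B} {n : ℕ} {r : B} (hr : r ∈ C.E n) (hX : C.E n ≤ X)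
    (hw : ∀ i, C.w i * r ∈ X) (k : Fin 2) : C.y k * r ∈ X := by
  obtain ⟨d, hd⟩ := C.y_span_w k
  have h1 : (C.y k - ∑ i, (d i : B) * C.w i) * r ∈ X := hX (C.mul_one_left hd hr)
  have h2 : ∑ i, (d i : B) * (C.w i * r) ∈ X := sum_mem (fun i _ => X.smul_mem (d i) (hw i))
  have h3 : C.y k * r = (C.y k - ∑ i, (d i : B) * C.w i) * r + ∑ i, (d i : B) * (C.w i * r) := by
    rw [sub_mul, Finset.sum_mul]
    simp only [mul_assoc]
    abel
  rw [h3]
  exact add_mem h1 h2

theorem Rel.zero {n p : ℕ} {x : Fin p → B} {r : B}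
    (h : C.Rel n x 0 r) : r ∈ C.E (n - 1) := by
  obtain ⟨hr, g, hg, hw⟩ := h
  have hg0 : g = 0 := by
    funext i k
    have h1 := hg k
    simp only [Pi.zero_apply, ZeroMemClass.coe_zero, zero_mul, Finset.sum_const_zero, zero_sub] at h1
    have h2 := C.right_indep (fun i => g i k) (by simpa using neg_mem h1)
    exact congrFun h2 i
  have hw1 : ∀ i, C.w i * r ∈ C.E n := by
    intro i
    have := hw i
    simp only [hg0, Pi.zero_apply, ZeroMemClass.coe_zero, zero_mul, Finset.sum_const_zero,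
      zero_sub] at this
    simpa using neg_mem this
  cases n with
  | zero => exact hr
  | succ n =>
    exact C.nondeg n r hr (fun i => y_mul_mem_of_w hr le_rfl hw1 i)

theorem Rel.inj {n p : ℕ} {x : Fin p → B} (hx : LinearIndependent A (fun k => (C.E n).mkQ (x k)))
    {f : Fin 2 × Fin p → A} {r : B}
    (h : C.Rel n x f r) (hr : r ∈ C.E (n - 1)) : f = 0 := by
  obtain ⟨hr', g, hg, hw⟩ := h
  have hwr : ∀ i, C.w i * r ∈ C.E n := by
    intro i
    cases n with
    | zero =>
      rw [C.E_zero, Submodule.mem_bot] at hr'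
      rw [hr', mul_zero]; exact zero_mem _
    | succ n => exact C.mul_two_left (C.w_mem i) hr
  have hg0 : ∀ i k, g i k = 0 := by
    intro i k
    have h1 : ∑ k, (g i k : B) * x k ∈ C.E n := by
      have := add_mem (hw i) (hwr i)
      simpa using this
    have h2 : ∑ k, (g i k) • (C.E n).mkQ (x k) = 0 := by
      have : (C.E n).mkQ (∑ k, (g i k : B) * x k) = 0 := by
        rwa [mkQ_apply, Submodule.Quotient.mk_eq_zero]
      rw [map_sum] at this
      exact this
    exact Fintype.linearIndependent_iff.1 hx (fun k => g i k) h2 k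
  funext ⟨i, k⟩
  have h3 := hg k
  simp only [hg0, ZeroMemClass.coe_zero, mul_zero, Finset.sum_const_zero, sub_zero] at h3
  exact congrFun (C.left_indep (fun i => f (i, k)) h3) i

theorem Rel.smul {n p : ℕ} {x : Fin p → B} {f : Fin 2 × Fin p → A} {r : B}
    (h : C.Rel n x f r) {μ l : A} {c : Fin 2 → Fin 2 → A}
    (h1 : ∀ k, (l : B) * C.y k - ∑ i, C.y i * (c i k : B) ∈ C.E 1)
    (h2 : ∀ m, C.w m * (μ : B) - ∑ i, (c m i : B) * C.w i ∈ C.E 1) :
    C.Rel n x (l • f) (μ * r) := by
  obtain ⟨hr, g, hg, hw⟩ := h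
  refine ⟨C.coe_mul_mem μ hr, fun i k => ∑ j, c i j * g j k, fun k => ?_, fun i => ?_⟩
  · have e1 := C.coe_mul_mem l (hg k)
    have e2 : ∑ j, ((l : B) * C.y j - ∑ i, C.y i * (c i j : B)) * (g j k : B) ∈ C.E 1 :=
      sum_mem (fun j _ => C.mul_one_right (C.coe_mem _) (h1 j))
    have e3 := add_mem e1 e2
    convert e3 using 1
    simp only [Pi.smul_apply, smul_eq_mul, Subring.coe_mul, AddSubmonoidClass.coe_finsetSum,
      mul_sub, sub_mul, Finset.mul_sum, Finset.sum_mul, Finset.sum_sub_distrib, mul_assoc]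
    rw [Finset.sum_comm (s := (Finset.univ : Finset (Fin 2)))
      (t := (Finset.univ : Finset (Fin 2)))]
    abel
  · have e1 : ∑ j, (c i j : B) * (∑ k, (g j k : B) * x k - C.w j * r) ∈ C.E n :=
      sum_mem (fun j _ => C.coe_mul_mem _ (hw j))
    have e2 : (C.w i * (μ : B) - ∑ j, (c i j : B) * C.w j) * r ∈ C.E n :=
      C.mul_one_left (h2 i) hr
    have e3 := sub_mem e1 e2
    convert e3 using 1
    simp only [Subring.coe_mul, AddSubmonoidClass.coe_finsetSum,
      mul_sub, sub_mul, Finset.mul_sum, Finset.sum_mul, Finset.sum_sub_distrib, mul_assoc]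
    rw [Finset.sum_comm (s := (Finset.univ : Finset (Fin p)))
      (t := (Finset.univ : Finset (Fin 2)))]
    abel


variable (C)

theorem rank_lt {X : Submodule A B} {m : ℕ} (hX : X ≤ C.E m) (n : ℕ) :
    Module.rank A (X.map (C.E n).mkQ) < ℵ₀ :=
  ((rank_map_le _ _).trans (Submodule.rank_mono hX)).trans_lt (C.finite_E m)

variable {C}

theorem key [IsDomain A] [StrongRankCondition A] [HasRankNullity.{u} A] (n : ℕ)
    {X Y Z : Submodule A B} (hX : C.E n ≤ X) (hX' : X ≤ C.E (n + 1)) (hY' : Y ≤ C.E (n + 2))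
    (hXY : ∀ x ∈ X, ∀ i, C.y i * x ∈ Y) (hZ' : Z ≤ C.E n)
    (hZ : ∀ r ∈ C.E n, (∀ i, C.y i * r ∈ X) → r ∈ Z) :
    2 * C.nu n X ≤ C.nu (n - 1) Z + C.nu (n + 1) Y := by
  obtain ⟨p, hp⟩ : ∃ p, p = C.nu n X := ⟨_, rfl⟩
  obtain ⟨x', hx'⟩ := exists_linearIndependent_of_le_finrank (R := A)
    (M := X.map (C.E n).mkQ) (n := p) hp.le
  rw [← hp]
  have hx0 : ∀ k, ∃ b ∈ X, (C.E n).mkQ b = (x' k : B ⧸ C.E n) := fun k => (x' k).2
  choose x hxX hxe using hx0
  have hx : LinearIndependent A (fun k => (C.E n).mkQ (x k)) := by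
    have h1 := hx'.map' (X.map (C.E n).mkQ).subtype (Submodule.ker_subtype _)
    have h2 : (fun k => (C.E n).mkQ (x k)) = (X.map (C.E n).mkQ).subtype ∘ fun k => x' k := by
      funext k
      exact hxe k
    rw [h2]
    exact h1
  -- the linear map
  let T : (Fin 2 × Fin p → A) →ₗ[A] B ⧸ C.E (n + 1) :=
    Fintype.linearCombination A (fun ik : Fin 2 × Fin p => (C.E (n + 1)).mkQ (C.y ik.1 * x ik.2))
  have hT : ∀ f, T f = (C.E (n + 1)).mkQ (∑ k, ∑ i, (f (i, k) : B) * C.y i * x k) := by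
    intro f
    simp only [T, Fintype.linearCombination_apply]
    rw [Fintype.sum_prod_type_right, map_sum]
    apply Finset.sum_congr rfl
    intro k _
    rw [map_sum]
    apply Finset.sum_congr rfl
    intro i _
    rw [mul_assoc, ← smul_def', map_smul]
  have hrange : LinearMap.range T ≤ Y.map (C.E (n + 1)).mkQ := by
    rw [Fintype.range_linearCombination, span_le]
    rintro _ ⟨ik, rfl⟩
    exact ⟨_, hXY _ (hxX _) _, rfl⟩
  have hdim : Module.finrank A (LinearMap.range T) + Module.finrank A (LinearMap.ker T) = 2 * p := by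
    have h1 := LinearMap.rank_range_add_rank_ker T
    have h2 : Module.rank A (Fin 2 × Fin p → A) = ((2 * p : ℕ) : Cardinal) := by
      rw [rank_fun']; simp
    have h3 : Module.rank A (LinearMap.range T) < ℵ₀ :=
      (Submodule.rank_mono hrange).trans_lt (C.rank_lt hY' _)
    have h4 : Module.rank A (LinearMap.ker T) < ℵ₀ := by
      refine (Submodule.rank_le _).trans_lt ?_
      rw [h2]; exact Cardinal.natCast_lt_aleph0
    have h5 := congrArg Cardinal.toNat h1
    rw [Cardinal.toNat_add h3 h4, h2, Cardinal.toNat_natCast] at h5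
    exact h5
  have hr1 : Module.finrank A (LinearMap.range T) ≤ C.nu (n + 1) Y :=
    Cardinal.toNat_le_toNat (Submodule.rank_mono hrange) (C.rank_lt hY' _)
  -- the correspondence
  have hex : ∀ f : LinearMap.ker T, ∃ r, C.Rel n x f.1 r := by
    intro f
    have hf : T f.1 = 0 := f.2
    rw [hT, mkQ_apply, Submodule.Quotient.mk_eq_zero] at hf
    choose c hc using fun a : A => C.alpha a
    let g : Fin 2 → Fin p → A := fun i k => ∑ l, c (f.1 (l, k)) i l
    have hg : ∀ k, ∑ i, (f.1 (i, k) : B) * C.y i - ∑ i, C.y i * (g i k : B) ∈ C.E 1 := by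
      intro k
      have h1 : ∑ i, ((f.1 (i, k) : B) * C.y i - ∑ j, C.y j * (c (f.1 (i, k)) j i : B)) ∈ C.E 1 :=
        sum_mem (fun i _ => hc (f.1 (i, k)) i)
      convert h1 using 1
      simp only [g, AddSubmonoidClass.coe_finsetSum, Finset.mul_sum, Finset.sum_sub_distrib]
      rw [Finset.sum_comm]
    have hu : ∀ i, ∑ k, (g i k : B) * x k ∈ X := by
      intro i
      exact sum_mem (fun k _ => X.smul_mem (g i k) (hxX k))
    have hsum : ∑ i, C.y i * (∑ k, (g i k : B) * x k) ∈ C.E (n + 1) := by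
      have h1 : ∑ k, (∑ i, (f.1 (i, k) : B) * C.y i - ∑ i, C.y i * (g i k : B)) * x k
          ∈ C.E (n + 1) :=
        sum_mem (fun k _ => C.mul_one_left (hg k) (hX' (hxX k)))
      have h2 := sub_mem hf h1
      convert h2 using 1
      rw [← Finset.sum_sub_distrib]
      simp only [sub_mul, Finset.sum_mul, Finset.mul_sum, sub_sub_cancel]
      rw [Finset.sum_comm]
      simp only [mul_assoc]
    obtain ⟨r, hr, hr'⟩ := C.exact n (fun i => ∑ k, (g i k : B) * x k)
      (fun i => hX' (hu i)) hsum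
    exact ⟨r, hr, g, hg, hr'⟩
  choose ρ hρ using hex
  have hρZ : ∀ f, ρ f ∈ Z := by
    intro f
    obtain ⟨hr, g, hg, hw⟩ := hρ f
    refine hZ _ hr (fun i => y_mul_mem_of_w hr hX (fun j => ?_) i)
    have h1 : ∑ k, (g j k : B) * x k ∈ X := sum_mem (fun k _ => X.smul_mem (g j k) (hxX k))
    have h2 := sub_mem h1 (hX (hw j))
    simpa using h2
  have huniq : ∀ (f : LinearMap.ker T) (r : B), C.Rel n x f.1 r → ρ f - r ∈ C.E (n - 1) := by
    intro f r hr
    have h1 := (hρ f).add hr.neg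
    rw [add_neg_cancel] at h1
    have := h1.zero
    rwa [← sub_eq_add_neg] at this
  let M' : Submodule A (B ⧸ C.E (n - 1)) := Z.map (C.E (n - 1)).mkQ
  let j : LinearMap.ker T →+ M' :=
    { toFun := fun f => ⟨(C.E (n - 1)).mkQ (ρ f), ⟨_, hρZ f, rfl⟩⟩
      map_zero' := by
        apply Subtype.ext
        have h1 : C.Rel n x (0 : Fin 2 × Fin p → A) (ρ 0) := hρ 0
        have h2 := h1.zero
        rwa [← Submodule.Quotient.mk_eq_zero (C.E (n - 1))] at h2
      map_add' := by
        intro f f'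
        apply Subtype.ext
        have h1 : C.Rel n x (f + f').1 (ρ f + ρ f') := (hρ f).add (hρ f')
        have h2 := huniq _ _ h1
        have h3 := (Submodule.Quotient.eq (C.E (n - 1))).2 h2
        exact h3 }
  have hj : Function.Injective j := by
    rw [injective_iff_map_eq_zero]
    intro f hf
    have h1 : (C.E (n - 1)).mkQ (ρ f) = 0 := congrArg Subtype.val hf
    rw [mkQ_apply, Submodule.Quotient.mk_eq_zero] at h1
    exact Subtype.ext ((hρ f).inj hx h1)
  choose τ c hτ hτ' using C.twist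
  have hker : Module.rank A (LinearMap.ker T) ≤ Module.rank A M' := by
    refine rank_le_of_injective_injective τ j ?_ hj ?_
    · intro μ hμ
      have h1 := hτ μ
      simp only [hμ, ZeroMemClass.coe_zero, zero_mul, zero_sub] at h1
      have h2 : ∀ i k, c μ i k = 0 := by
        intro i k
        have h3 := C.right_indep (fun i => c μ i k) (by simpa using neg_mem (h1 k))
        exact congrFun h3 i
      have h4 := hτ' μ
      simp only [h2, ZeroMemClass.coe_zero, zero_mul, Finset.sum_const_zero, sub_zero] at h4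
      have h5 : (μ : B) ∈ C.E 0 := by
        refine C.nondeg 0 _ (C.coe_mem μ) (fun i => ?_)
        exact y_mul_mem_of_w (C.coe_mem μ) le_rfl h4 i
      rw [C.E_zero, Submodule.mem_bot] at h5
      exact_mod_cast h5
    · intro μ f
      apply Subtype.ext
      have h1 : C.Rel n x (τ μ • f).1 ((μ : B) * ρ f) := (hρ f).smul (hτ μ) (hτ' μ)
      have h2 := huniq _ _ h1
      have h3 := (Submodule.Quotient.eq (C.E (n - 1))).2 h2
      exact h3
  have hker' : Module.finrank A (LinearMap.ker T) ≤ C.nu (n - 1) Z :=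
    Cardinal.toNat_le_toNat hker (C.rank_lt hZ' _)
  omega

theorem nu_bot [Nontrivial A] {n : ℕ} {X : Submodule A B} (h : X ≤ C.E n) : C.nu n X = 0 := by
  have : X.map (C.E n).mkQ = ⊥ := by
    rw [eq_bot_iff]
    rintro _ ⟨x, hx, rfl⟩
    rw [Submodule.mem_bot, mkQ_apply, Submodule.Quotient.mk_eq_zero]
    exact h hx
  rw [nu, this]
  rw [Module.finrank, rank_subsingleton']
  simp

theorem y_mul_mem {n : ℕ} {b : B} (hb : b ∈ C.E n) (i : Fin 2) : C.y i * b ∈ C.E (n + 1) :=
  C.mul_two_left (C.y_mem i) hb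

/-- downward induction -/
theorem descent [IsDomain A] [StrongRankCondition A] [HasRankNullity.{u} A] :
    ∀ (n : ℕ) {X Y : Submodule A B}, C.E n ≤ X → X ≤ C.E (n + 1) → Y ≤ C.E (n + 2) →
    (∀ x ∈ X, ∀ i, C.y i * x ∈ Y) → C.nu (n + 1) Y ≤ C.nu n X → C.nu n X = 0 := by
  intro n
  induction n with
  | zero =>
    intro X Y hX hX' hY' hXY hle
    have h1 := key 0 (Z := ⊥) hX hX' hY' hXY bot_le (fun r hr _ => by rwa [C.E_zero] at hr)
    have h2 : C.nu (0 - 1) (⊥ : Submodule A B) = 0 := nu_bot bot_le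
    omega
  | succ n ih =>
    intro X Y hX hX' hY' hXY hle
    -- Z
    let Z : Submodule A B :=
      { carrier := {r | r ∈ C.E (n + 1) ∧ ∀ i, C.y i * r ∈ X}
        zero_mem' := ⟨zero_mem _, fun i => by rw [mul_zero]; exact zero_mem _⟩
        add_mem' := by
          rintro a b ⟨ha, ha'⟩ ⟨hb, hb'⟩
          exact ⟨add_mem ha hb, fun i => by rw [mul_add]; exact add_mem (ha' i) (hb' i)⟩
        smul_mem' := by
          rintro a b ⟨hb, hb'⟩
          refine ⟨C.coe_mul_mem a hb, fun i => ?_⟩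
          obtain ⟨d, hd⟩ := C.beta a i
          have h1 := hX (C.mul_one_left hd hb)
          have h2 : ∑ j, (d j : B) * (C.y j * b) ∈ X :=
            sum_mem (fun j _ => X.smul_mem (d j) (hb' j))
          have h3 := add_mem h1 h2
          convert h3 using 1
          rw [sub_mul, Finset.sum_mul, smul_def']
          simp only [mul_assoc]
          abel }
    have h1 := key (n + 1) (Z := Z) hX hX' hY' hXY (fun r hr => hr.1) (fun r hr h => ⟨hr, h⟩)
    have h3 : C.nu (n + 1) X ≤ C.nu n Z := by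
      rw [Nat.add_sub_cancel] at h1
      omega
    have h4 := ih (X := Z) (Y := X) (fun r hr => ⟨C.E_mono n hr, fun i => hX (y_mul_mem hr i)⟩)
      (fun r hr => hr.1) hX' (fun r hr i => hr.2 i) h3
    omega


/-- right multiplication as a left linear map -/
def mulR (A : Subring B) (g : B) : B →ₗ[A] B where
  toFun r := r * g
  map_add' a b := add_mul a b g
  map_smul' a b := by
    simp only [RingHom.id_apply, Subring.smul_def, smul_eq_mul, mul_assoc]

theorem mulR_apply (g r : B) : mulR A g r = r * g := rfl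

variable (C)

theorem finrank_add [IsDomain A] [HasRankNullity.{u} A] {N : Type u}
    [AddCommGroup N] [Module A N] (φ : B →ₗ[A] N) {X : Submodule A B} {M : ℕ} (hX : X ≤ C.E M) :
    Module.finrank A (X.map φ) + Module.finrank A (X ⊓ LinearMap.ker φ : Submodule A B) =
      Module.finrank A X := by
  have h1 := LinearMap.rank_range_add_rank_ker (φ.domRestrict X)
  have h2 : LinearMap.range (φ.domRestrict X) = X.map φ := by
    ext z
    simp only [LinearMap.mem_range, Submodule.mem_map, Subtype.exists]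
    constructor
    · rintro ⟨a, ha, rfl⟩; exact ⟨a, ha, rfl⟩
    · rintro ⟨a, ha, rfl⟩; exact ⟨a, ha, rfl⟩
  have h3 : Module.rank A (LinearMap.ker (φ.domRestrict X)) =
      Module.rank A (X ⊓ LinearMap.ker φ : Submodule A B) := by
    have e : (LinearMap.ker (φ.domRestrict X)).map X.subtype = X ⊓ LinearMap.ker φ := by
      ext z
      simp only [Submodule.mem_map, LinearMap.mem_ker, Subtype.exists, Submodule.mem_inf]
      constructor
      · rintro ⟨a, ha, h, rfl⟩; exact ⟨ha, h⟩
      · rintro ⟨ha, h⟩; exact ⟨z, ha, h, rfl⟩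
    rw [← e]
    exact (LinearEquiv.rank_eq (Submodule.equivMapOfInjective X.subtype
      X.injective_subtype _))
  rw [h2, h3] at h1
  have hXf : Module.rank A X < ℵ₀ := (Submodule.rank_mono hX).trans_lt (C.finite_E M)
  have h4 : Module.rank A (X.map φ) < ℵ₀ := (rank_map_le _ _).trans_lt hXf
  have h5 : Module.rank A (X ⊓ LinearMap.ker φ : Submodule A B) < ℵ₀ :=
    (Submodule.rank_mono inf_le_left).trans_lt hXf
  have h6 := congrArg Cardinal.toNat h1
  rw [Cardinal.toNat_add h4 h5] at h6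
  exact h6

theorem finrank_nu [IsDomain A] [HasRankNullity.{u} A] {m M : ℕ} {X : Submodule A B}
    (h : C.E m ≤ X) (hX : X ≤ C.E M) :
    C.nu m X + Module.finrank A (C.E m) = Module.finrank A X := by
  have h1 := C.finrank_add (C.E m).mkQ hX
  rw [Submodule.ker_mkQ, inf_eq_right.2 h] at h1
  exact h1

theorem one_le_nu [IsDomain A] {n M : ℕ} {X : Submodule A B}
    (hX : X ≤ C.E M) {v : B} (hv : v ∈ X) (hv' : v ∉ C.E n) : 1 ≤ C.nu n X := by
  have h1 : LinearIndependent A (fun _ : Fin 1 =>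
      (⟨(C.E n).mkQ v, ⟨v, hv, rfl⟩⟩ : X.map (C.E n).mkQ)) := by
    rw [Fintype.linearIndependent_iff]
    intro g hg i
    rw [Fin.sum_univ_one] at hg
    have h2 := congrArg Subtype.val hg
    by_contra hne
    apply hv'
    apply C.torsion_free n (g 0) v
    · intro h0
      apply hne
      rw [Subsingleton.elim i 0]
      exact h0
    · rw [← Submodule.Quotient.mk_eq_zero]
      exact h2
  have h2 := h1.cardinal_lift_le_rank
  simp only [Cardinal.mk_fintype, Fintype.card_fin, Nat.cast_one, Cardinal.lift_one] at h2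
  have h2' : (1 : Cardinal) ≤ Module.rank A (X.map (C.E n).mkQ) := by simpa using h2
  have h3 := Cardinal.toNat_le_toNat h2' (C.rank_lt hX n)
  have h4 : Cardinal.toNat 1 = 1 := by simp
  rw [h4] at h3
  exact h3

theorem two_mul_finrank [Nontrivial A] (n : ℕ) :
    2 * Module.finrank A (C.E n) = n * (n + 1) := by
  induction n with
  | zero =>
    have : Module.finrank A (C.E 0) = 0 := by
      rw [C.E_zero, Module.finrank, rank_subsingleton']
      simp
    rw [this]
  | succ n ih =>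
    rw [C.finrank_E n, mul_add, ih]
    ring

theorem le_mulR_map {n k : ℕ} {g : B} (hg : g ∈ C.E (n + 1)) :
    (C.E (k + 1)).map (mulR A g) ⊔ C.E (n + k) ≤ C.E (n + k + 1) := by
  rw [sup_le_iff]
  refine ⟨?_, C.E_mono _⟩
  rintro _ ⟨r, hr, rfl⟩
  have := C.mul_mem k n r g hr hg
  rwa [Nat.add_comm k n] at this

theorem exists_word {n : ℕ} {g : B} (hg : g ∈ C.E (n + 1)) (hg' : g ∉ C.E n) (k : ℕ) :
    ∃ u ∈ C.E (k + 1), u * g ∉ C.E (n + k) := by
  induction k with
  | zero =>
    exact ⟨1, (C.E_one 1).2 A.one_mem, by rwa [one_mul]⟩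
  | succ k ih =>
    obtain ⟨u, hu, hug⟩ := ih
    by_contra hcon
    push Not at hcon
    apply hug
    apply C.nondeg (n + k)
    · have := C.mul_mem k n u g hu hg
      rwa [Nat.add_comm k n] at this
    · intro i
      rw [← mul_assoc]
      exact hcon _ (C.mul_two_left (C.y_mem i) hu)

include C in
theorem mul_ne_zero' [IsDomain A] [StrongRankCondition A] [HasRankNullity.{u} A]
    {f g : B} (hf : f ≠ 0) (hg : g ≠ 0) : f * g ≠ 0 := by
  intro hfg
  have hlev : ∀ b : B, b ≠ 0 → ∃ n, b ∈ C.E (n + 1) ∧ b ∉ C.E n := by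
    intro b hb
    classical
    have hex := C.exhaust b
    have h1 := Nat.find_spec hex
    have h2 : Nat.find hex ≠ 0 := by
      intro h0
      rw [h0, C.E_zero, Submodule.mem_bot] at h1
      exact hb h1
    obtain ⟨n, hn⟩ := Nat.exists_eq_succ_of_ne_zero h2
    refine ⟨n, ?_, ?_⟩
    · rw [hn] at h1; exact h1
    · exact Nat.find_min hex (by omega)
  obtain ⟨n, hgn, hgn'⟩ := hlev g hg
  obtain ⟨m, hfm, hfm'⟩ := hlev f hf
  let X : ℕ → Submodule A B := fun k => (C.E (k + 1)).map (mulR A g) ⊔ C.E (n + k)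
  have hXle : ∀ k, X k ≤ C.E (n + k + 1) := fun k => C.le_mulR_map hgn
  have hXge : ∀ k, C.E (n + k) ≤ X k := fun k => le_sup_right
  have hXpos : ∀ k, 1 ≤ C.nu (n + k) (X k) := by
    intro k
    obtain ⟨u, hu, hug⟩ := C.exists_word hgn hgn' k
    exact C.one_le_nu (hXle k) (v := u * g) (Submodule.mem_sup_left ⟨u, hu, rfl⟩) hug
  have hXy : ∀ k, ∀ x ∈ X k, ∀ i, C.y i * x ∈ X (k + 1) := by
    intro k x hx i
    obtain ⟨_, ⟨r, hr, rfl⟩, e, he, rfl⟩ := Submodule.mem_sup.1 hx
    rw [mul_add]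
    refine add_mem (Submodule.mem_sup_left ⟨C.y i * r, C.mul_two_left (C.y_mem i) hr, ?_⟩)
      (Submodule.mem_sup_right (C.mul_two_left (C.y_mem i) he))
    rw [mulR_apply, mulR_apply, mul_assoc]
  -- the number at level m
  have hXm : C.nu (n + m) (X m) ≤ m := by
    let K : Submodule A B := C.E (m + 1) ⊓ LinearMap.ker ((C.E (n + m)).mkQ ∘ₗ mulR A g)
    have hK : ∀ r, r ∈ K ↔ r ∈ C.E (m + 1) ∧ r * g ∈ C.E (n + m) := by
      intro r
      simp only [K, Submodule.mem_inf, LinearMap.mem_ker, LinearMap.comp_apply, mulR_apply,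
        mkQ_apply, Submodule.Quotient.mk_eq_zero]
    have h1 := C.finrank_add ((C.E (n + m)).mkQ ∘ₗ mulR A g) (le_refl (C.E (m + 1)))
    have h2 : (C.E (m + 1)).map ((C.E (n + m)).mkQ ∘ₗ mulR A g) = (X m).map (C.E (n + m)).mkQ := by
      rw [Submodule.map_comp, Submodule.map_sup]
      have : (C.E (n + m)).map (C.E (n + m)).mkQ = ⊥ := by
        rw [eq_bot_iff]
        rintro _ ⟨x, hx, rfl⟩
        rw [Submodule.mem_bot, mkQ_apply, Submodule.Quotient.mk_eq_zero]
        exact hx
      rw [this, sup_bot_eq]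
    rw [h2] at h1
    have h3 : C.E m ≤ K := by
      intro r hr
      rw [hK]
      refine ⟨C.E_mono m hr, ?_⟩
      cases m with
      | zero => rw [C.E_zero, Submodule.mem_bot] at hr; rw [hr, zero_mul]; exact zero_mem _
      | succ m =>
        have := C.mul_mem m n r g hr hgn
        convert this using 2
        omega
    have h4 := C.finrank_nu h3 (inf_le_left : K ≤ C.E (m + 1))
    have h5 : 1 ≤ C.nu m K := by
      refine C.one_le_nu (inf_le_left : K ≤ C.E (m + 1)) (v := f) ?_ hfm'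
      rw [hK]
      exact ⟨hfm, by rw [hfg]; exact zero_mem _⟩
    have h6 := C.finrank_E m
    have h7 : C.nu (n + m) (X m) + Module.finrank A K = Module.finrank A (C.E (m + 1)) := h1
    omega
  have hstep : ∀ k, C.nu (n + k) (X k) + 1 ≤ C.nu (n + (k + 1)) (X (k + 1)) := by
    intro k
    by_contra hcon
    have h1 : C.nu (n + k + 1) (X (k + 1)) ≤ C.nu (n + k) (X k) := by
      have : n + (k + 1) = n + k + 1 := by omega
      rw [this] at hcon
      omega
    have h2 := descent (C := C) (n + k) (hXge k) (hXle k) (hXle (k + 1)) (hXy k) h1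
    have h3 := hXpos k
    omega
  have hgrow : ∀ k, k + 1 ≤ C.nu (n + k) (X k) := by
    intro k
    induction k with
    | zero => exact hXpos 0
    | succ k ih => have := hstep k; omega
  have := hgrow m
  omega

include C in
theorem leftOre [IsDomain A] [StrongRankCondition A] [HasRankNullity.{u} A] : LeftOre B := by
  intro a b hb
  by_cases ha : a = 0
  · exact ⟨0, 1, fun h => hb (by rw [← one_mul b, h, zero_mul]), by rw [ha]; simp⟩
  by_contra hcon
  push Not at hcon
  obtain ⟨m1, hm1⟩ := C.exhaust a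
  obtain ⟨m2, hm2⟩ := C.exhaust b
  let m := max m1 m2
  have ham : a ∈ C.E (m + 1) := C.mono (by omega) hm1
  have hbm : b ∈ C.E (m + 1) := C.mono (by omega) hm2
  let k := 10 * (m + 1)
  let P := (C.E (k + 1)).map (mulR A a)
  let Q := (C.E (k + 1)).map (mulR A b)
  have hP : P ≤ C.E (m + k + 1) := le_trans le_sup_left (C.le_mulR_map (k := k) ham)
  have hQ : Q ≤ C.E (m + k + 1) := le_trans le_sup_left (C.le_mulR_map (k := k) hbm)
  have hfr : ∀ g : B, g ≠ 0 → Module.finrank A ((C.E (k + 1)).map (mulR A g)) =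
      Module.finrank A (C.E (k + 1)) := by
    intro g hg
    have h1 := C.finrank_add (mulR A g) (le_refl (C.E (k + 1)))
    have h2 : LinearMap.ker (mulR A g) = ⊥ := by
      rw [eq_bot_iff]
      intro r hr
      rw [LinearMap.mem_ker, mulR_apply] at hr
      by_contra hne
      exact C.mul_ne_zero' hne hg hr
    rw [h2, inf_bot_eq] at h1
    have h3 : Module.finrank A (⊥ : Submodule A B) = 0 := by
      rw [Module.finrank, rank_subsingleton']
      simp
    omega
  have hinf : P ⊓ Q = ⊥ := by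
    rw [eq_bot_iff]
    rintro x ⟨⟨r, hr, rfl⟩, ⟨s, hs, hrs⟩⟩
    rw [Submodule.mem_bot, mulR_apply]
    rw [mulR_apply, mulR_apply] at hrs
    by_contra hne
    by_cases hr0 : r = 0
    · exact hne (by rw [hr0, zero_mul])
    · exact hcon s r hr0 hrs.symm
  have h1 := Submodule.rank_sup_add_rank_inf_eq P Q
  rw [hinf] at h1
  have h2 : Module.rank A (⊥ : Submodule A B) = 0 := by
    rw [rank_subsingleton']
  rw [h2, add_zero] at h1
  have hfin : ∀ {X : Submodule A B}, X ≤ C.E (m + k + 1) → Module.rank A X < ℵ₀ :=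
    fun hX => (Submodule.rank_mono hX).trans_lt (C.finite_E _)
  have h3 := congrArg Cardinal.toNat h1
  rw [Cardinal.toNat_add (hfin hP) (hfin hQ)] at h3
  have h4 : Module.finrank A (P ⊔ Q : Submodule A B) ≤ Module.finrank A (C.E (m + k + 1)) :=
    Cardinal.toNat_le_toNat (Submodule.rank_mono (sup_le hP hQ)) (C.finite_E _)
  have h5 : Module.finrank A (P ⊔ Q : Submodule A B) =
      Module.finrank A P + Module.finrank A Q := h3
  rw [hfr a ha, hfr b hb] at h5
  have h6 := C.two_mul_finrank (k + 1)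
  have h7 := C.two_mul_finrank (m + k + 1)
  have h8 : 2 * ((k + 1) * (k + 1 + 1)) ≤ (m + k + 1) * (m + k + 1 + 1) := by
    rw [← h6, ← h7]
    omega
  simp only [k] at h8
  nlinarith

end Core

end Run7.h323
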