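import Pool.Agent.Run7.h323.Core

/-!
Double Ore extensions (in the sense of Zhang and Zhang) give a `Core`.
-/

namespace Run7.h323

open Cardinal Module Submodule

universe u

/-- Double extension data over a subring, with central coefficients. -/
structure DE {B : Type u} [Ring B] (A : Subring B) (y₁ y₂ : B) where
  p : A
  q : A
  p' : A
  q' : A
  p_comm : ∀ b : B, (p : B) * b = b * p
  q_comm : ∀ b : B, (q : B) * b = b * q
  p'_comm : ∀ b : B, (p' : B) * b = b * p'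
  q'_comm : ∀ b : B, (q' : B) * b = b * q'
  left_basis : Function.Bijective fun c : ℕ × ℕ →₀ A =>
    c.sum fun m a => (a : B) * (y₁ ^ m.1 * y₂ ^ m.2)
  right_basis : Function.Bijective fun c : ℕ × ℕ →₀ A =>
    c.sum fun m a => y₂ ^ m.1 * y₁ ^ m.2 * (a : B)
  rel : ∃ t₁ t₂ t₀ : A, y₂ * y₁ = (p : B) * (y₁ * y₂) + q * (y₁ * y₁) + t₁ * y₁ + t₂ * y₂ + t₀
  rel' : ∃ t₁ t₂ t₀ : A, y₁ * y₂ = (p' : B) * (y₂ * y₁) + q' * (y₁ * y₁) + y₁ * t₁ + y₂ * t₂ + t₀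
  ore_left₁ : ∀ a : A, ∃ a₁ a₂ a₀ : A, y₁ * (a : B) = a₁ * y₁ + a₂ * y₂ + a₀
  ore_left₂ : ∀ a : A, ∃ a₁ a₂ a₀ : A, y₂ * (a : B) = a₁ * y₁ + a₂ * y₂ + a₀
  ore_right₁ : ∀ a : A, ∃ a₁ a₂ a₀ : A, (a : B) * y₁ = y₁ * a₁ + y₂ * a₂ + a₀
  ore_right₂ : ∀ a : A, ∃ a₁ a₂ a₀ : A, (a : B) * y₂ = y₁ * a₁ + y₂ * a₂ + a₀

namespace DE

variable {B : Type u} [Ring B] {A : Subring B} {y₁ y₂ : B} (D : DE A y₁ y₂)

/-- the subring as an additive group -/
def AA (A : Subring B) : Submodule ℤ B := A.toAddSubgroup.toIntSubmodule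

theorem mem_AA {b : B} : b ∈ AA A ↔ b ∈ A := Iff.rfl

/-- `A y₁ + A y₂ + A` -/
def W (A : Subring B) (y₁ y₂ : B) : Submodule ℤ B where
  carrier := {b | ∃ a₁ a₂ a₀ : A, b = a₁ * y₁ + a₂ * y₂ + a₀}
  zero_mem' := ⟨0, 0, 0, by simp⟩
  add_mem' := by
    rintro _ _ ⟨a₁, a₂, a₀, rfl⟩ ⟨b₁, b₂, b₀, rfl⟩
    exact ⟨a₁ + b₁, a₂ + b₂, a₀ + b₀, by push_cast; noncomm_ring⟩
  smul_mem' := by
    rintro z _ ⟨a₁, a₂, a₀, rfl⟩
    exact ⟨z • a₁, z • a₂, z • a₀, by push_cast; simp only [smul_add, smul_mul_assoc]⟩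

/-- `y₁ A + y₂ A + A` -/
def W' (A : Subring B) (y₁ y₂ : B) : Submodule ℤ B where
  carrier := {b | ∃ a₁ a₂ a₀ : A, b = y₁ * a₁ + y₂ * a₂ + a₀}
  zero_mem' := ⟨0, 0, 0, by simp⟩
  add_mem' := by
    rintro _ _ ⟨a₁, a₂, a₀, rfl⟩ ⟨b₁, b₂, b₀, rfl⟩
    exact ⟨a₁ + b₁, a₂ + b₂, a₀ + b₀, by push_cast; noncomm_ring⟩
  smul_mem' := by
    rintro z _ ⟨a₁, a₂, a₀, rfl⟩
    exact ⟨z • a₁, z • a₂, z • a₀, by push_cast; simp only [smul_add, mul_smul_comm]⟩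

theorem y₁_mem_W : y₁ ∈ W A y₁ y₂ := ⟨1, 0, 0, by simp⟩
theorem y₂_mem_W : y₂ ∈ W A y₁ y₂ := ⟨0, 1, 0, by simp⟩
theorem AA_le_W : AA A ≤ W A y₁ y₂ := fun b hb => ⟨0, 0, ⟨b, hb⟩, by simp⟩
theorem one_mem_W : (1 : B) ∈ W A y₁ y₂ := AA_le_W A.one_mem
theorem coe_mem_AA (a : A) : (a : B) ∈ AA A := a.2

theorem AA_mul_W : AA A * W A y₁ y₂ ≤ W A y₁ y₂ := by
  rw [Submodule.mul_le]
  rintro a ha _ ⟨b₁, b₂, b₀, rfl⟩
  exact ⟨⟨a, ha⟩ * b₁, ⟨a, ha⟩ * b₂, ⟨a, ha⟩ * b₀, by push_cast; noncomm_ring⟩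

theorem AA_mul_AA : AA A * AA A ≤ AA A := by
  rw [Submodule.mul_le]
  intro a ha b hb
  exact A.mul_mem ha hb

include D in
theorem W_eq : W A y₁ y₂ = W' A y₁ y₂ := by
  apply le_antisymm
  · rintro _ ⟨a₁, a₂, a₀, rfl⟩
    have h1 : (a₁ : B) * y₁ ∈ W' A y₁ y₂ := D.ore_right₁ a₁
    have h2 : (a₂ : B) * y₂ ∈ W' A y₁ y₂ := D.ore_right₂ a₂
    exact add_mem (add_mem h1 h2) ⟨0, 0, a₀, by simp⟩
  · rintro _ ⟨a₁, a₂, a₀, rfl⟩
    have h1 : y₁ * (a₁ : B) ∈ W A y₁ y₂ := D.ore_left₁ a₁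
    have h2 : y₂ * (a₂ : B) ∈ W A y₁ y₂ := D.ore_left₂ a₂
    exact add_mem (add_mem h1 h2) ⟨0, 0, a₀, by simp⟩

include D in
theorem W_mul_AA : W A y₁ y₂ * AA A ≤ W A y₁ y₂ := by
  rw [D.W_eq, Submodule.mul_le]
  rintro _ ⟨b₁, b₂, b₀, rfl⟩ a ha
  exact ⟨b₁ * ⟨a, ha⟩, b₂ * ⟨a, ha⟩, b₀ * ⟨a, ha⟩, by push_cast; noncomm_ring⟩

/-- the filtration -/
def F (A : Subring B) (y₁ y₂ : B) (n : ℕ) : Submodule ℤ B := AA A * W A y₁ y₂ ^ n

theorem one_le_AA : (1 : Submodule ℤ B) ≤ AA A := by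
  rw [Submodule.one_le]; exact A.one_mem

theorem one_le_W : (1 : Submodule ℤ B) ≤ W A y₁ y₂ := by
  rw [Submodule.one_le]; exact one_mem_W

include D in
theorem pow_mul_AA (n : ℕ) : W A y₁ y₂ ^ n * AA A ≤ AA A * W A y₁ y₂ ^ n := by
  cases n with
  | zero => simp
  | succ n =>
    calc W A y₁ y₂ ^ (n + 1) * AA A = W A y₁ y₂ ^ n * (W A y₁ y₂ * AA A) := by
          rw [pow_succ, mul_assoc]
      _ ≤ W A y₁ y₂ ^ n * W A y₁ y₂ := mul_le_mul' le_rfl D.W_mul_AA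
      _ = 1 * W A y₁ y₂ ^ (n + 1) := by rw [one_mul, pow_succ]
      _ ≤ _ := mul_le_mul' one_le_AA le_rfl

include D in
theorem F_mul_F (m n : ℕ) : F A y₁ y₂ m * F A y₁ y₂ n ≤ F A y₁ y₂ (m + n) := by
  calc F A y₁ y₂ m * F A y₁ y₂ n = AA A * (W A y₁ y₂ ^ m * AA A) * W A y₁ y₂ ^ n := by
        simp only [F, mul_assoc]
    _ ≤ AA A * (AA A * W A y₁ y₂ ^ m) * W A y₁ y₂ ^ n :=
        mul_le_mul' (mul_le_mul' le_rfl (D.pow_mul_AA m)) le_rfl
    _ = (AA A * AA A) * (W A y₁ y₂ ^ (m + n)) := by simp only [pow_add, mul_assoc]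
    _ ≤ _ := mul_le_mul' AA_mul_AA le_rfl

include D in
theorem mul_mem_F {m n : ℕ} {a b : B} (ha : a ∈ F A y₁ y₂ m) (hb : b ∈ F A y₁ y₂ n) :
    a * b ∈ F A y₁ y₂ (m + n) := D.F_mul_F m n (Submodule.mul_mem_mul ha hb)

theorem F_zero : F A y₁ y₂ 0 = AA A := by simp [F]

theorem W_le_F_one : W A y₁ y₂ ≤ F A y₁ y₂ 1 := by
  calc W A y₁ y₂ = 1 * W A y₁ y₂ := (one_mul _).symm
    _ ≤ AA A * W A y₁ y₂ := mul_le_mul' one_le_AA le_rfl
    _ = _ := by simp [F]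

theorem F_one : F A y₁ y₂ 1 = W A y₁ y₂ := by
  apply le_antisymm _ W_le_F_one
  simpa [F] using AA_mul_W

theorem F_mono_succ (n : ℕ) : F A y₁ y₂ n ≤ F A y₁ y₂ (n + 1) := by
  calc F A y₁ y₂ n = F A y₁ y₂ n * 1 := (mul_one _).symm
    _ ≤ F A y₁ y₂ n * W A y₁ y₂ := mul_le_mul' le_rfl one_le_W
    _ = _ := by simp only [F, pow_succ, mul_assoc]

theorem F_mono {m n : ℕ} (h : m ≤ n) : F A y₁ y₂ m ≤ F A y₁ y₂ n :=
  monotone_nat_of_le_succ (F_mono_succ (A := A) (y₁ := y₁) (y₂ := y₂)) h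

theorem one_mem_F (n : ℕ) : (1 : B) ∈ F A y₁ y₂ n :=
  F_mono (Nat.zero_le n) (by rw [F_zero]; exact A.one_mem)

include D in
theorem pow₁_mem (i : ℕ) : y₁ ^ i ∈ F A y₁ y₂ i := by
  induction i with
  | zero => simpa using one_mem_F 0
  | succ i ih =>
    rw [pow_succ]
    exact D.mul_mem_F ih (W_le_F_one y₁_mem_W)

include D in
theorem pow₂_mem (i : ℕ) : y₂ ^ i ∈ F A y₁ y₂ i := by
  induction i with
  | zero => simpa using one_mem_F 0
  | succ i ih =>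
    rw [pow_succ]
    exact D.mul_mem_F ih (W_le_F_one y₂_mem_W)

/-- central scalars in `A` -/
def Cen (A : Subring B) : Set B := {k | k ∈ A ∧ ∀ b, k * b = b * k}

/-- `K`-span of the monomials `y₁ ^ a * y₂ ^ b` of degree `n` -/
def P (A : Subring B) (y₁ y₂ : B) (n : ℕ) : Submodule ℤ B :=
  span ℤ {z | ∃ k ∈ Cen A, ∃ a b : ℕ, a + b = n ∧ z = k * (y₁ ^ a * y₂ ^ b)}

/-- `K`-span of the monomials `y₂ ^ a * y₁ ^ b` of degree `n`, with `a ≤ m` -/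
def Q (A : Subring B) (y₁ y₂ : B) (n m : ℕ) : Submodule ℤ B :=
  span ℤ {z | ∃ k ∈ Cen A, ∃ a b : ℕ, a + b = n ∧ a ≤ m ∧ z = k * (y₂ ^ a * y₁ ^ b)}

theorem Cen_mul {k l : B} (hk : k ∈ Cen A) (hl : l ∈ Cen A) : k * l ∈ Cen A :=
  ⟨A.mul_mem hk.1 hl.1, fun b => by
    calc k * l * b = k * (l * b) := mul_assoc _ _ _
      _ = (l * b) * k := hk.2 _
      _ = b * l * k := by rw [hl.2 b]
      _ = b * (l * k) := mul_assoc _ _ _
      _ = b * (k * l) := by rw [hk.2 l]⟩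

theorem Cen_one : (1 : B) ∈ Cen A := ⟨A.one_mem, fun b => by simp⟩

theorem mul_P {k : B} (hk : k ∈ Cen A) {n : ℕ} {z : B} (hz : z ∈ P A y₁ y₂ n) :
    k * z ∈ P A y₁ y₂ n := by
  refine Submodule.span_induction ?_ ?_ ?_ ?_ hz
  · rintro _ ⟨l, hl, a, b, hab, rfl⟩
    exact subset_span ⟨k * l, Cen_mul hk hl, a, b, hab, by rw [mul_assoc]⟩
  · rw [mul_zero]; exact zero_mem _
  · intro x y _ _ hx hy; rw [mul_add]; exact add_mem hx hy
  · intro c x _ hx; rw [mul_smul_comm]; exact smul_mem _ _ hx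

theorem y₁_mul_P {n : ℕ} {z : B} (hz : z ∈ P A y₁ y₂ n) : y₁ * z ∈ P A y₁ y₂ (n + 1) := by
  refine Submodule.span_induction ?_ ?_ ?_ ?_ hz
  · rintro _ ⟨l, hl, a, b, hab, rfl⟩
    refine subset_span ⟨l, hl, a + 1, b, by omega, ?_⟩
    rw [← mul_assoc, ← hl.2, mul_assoc, ← mul_assoc y₁, pow_succ']
  · rw [mul_zero]; exact zero_mem _
  · intro x y _ _ hx hy; rw [mul_add]; exact add_mem hx hy
  · intro c x _ hx; rw [mul_smul_comm]; exact smul_mem _ _ hx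

theorem mul_Q {k : B} (hk : k ∈ Cen A) {n m : ℕ} {z : B} (hz : z ∈ Q A y₁ y₂ n m) :
    k * z ∈ Q A y₁ y₂ n m := by
  refine Submodule.span_induction ?_ ?_ ?_ ?_ hz
  · rintro _ ⟨l, hl, a, b, hab, ham, rfl⟩
    exact subset_span ⟨k * l, Cen_mul hk hl, a, b, hab, ham, by rw [mul_assoc]⟩
  · rw [mul_zero]; exact zero_mem _
  · intro x y _ _ hx hy; rw [mul_add]; exact add_mem hx hy
  · intro c x _ hx; rw [mul_smul_comm]; exact smul_mem _ _ hx

theorem y₂_mul_Q {n m : ℕ} {z : B} (hz : z ∈ Q A y₁ y₂ n m) :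
    y₂ * z ∈ Q A y₁ y₂ (n + 1) (m + 1) := by
  refine Submodule.span_induction ?_ ?_ ?_ ?_ hz
  · rintro _ ⟨l, hl, a, b, hab, ham, rfl⟩
    refine subset_span ⟨l, hl, a + 1, b, by omega, by omega, ?_⟩
    rw [← mul_assoc, ← hl.2, mul_assoc, ← mul_assoc y₂, pow_succ']
  · rw [mul_zero]; exact zero_mem _
  · intro x y _ _ hx hy; rw [mul_add]; exact add_mem hx hy
  · intro c x _ hx; rw [mul_smul_comm]; exact smul_mem _ _ hx

theorem Q_mul_y₁ {n m : ℕ} {z : B} (hz : z ∈ Q A y₁ y₂ n m) :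
    z * y₁ ∈ Q A y₁ y₂ (n + 1) m := by
  refine Submodule.span_induction ?_ ?_ ?_ ?_ hz
  · rintro _ ⟨l, hl, a, b, hab, ham, rfl⟩
    refine subset_span ⟨l, hl, a, b + 1, by omega, by omega, ?_⟩
    rw [mul_assoc, mul_assoc, pow_succ]
  · rw [zero_mul]; exact zero_mem _
  · intro x y _ _ hx hy; rw [add_mul]; exact add_mem hx hy
  · intro c x _ hx; rw [smul_mul_assoc]; exact smul_mem _ _ hx

theorem Q_mono {n m m' : ℕ} (h : m ≤ m') : Q A y₁ y₂ n m ≤ Q A y₁ y₂ n m' := by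
  apply span_mono
  rintro _ ⟨l, hl, a, b, hab, ham, rfl⟩
  exact ⟨l, hl, a, b, hab, by omega, rfl⟩

theorem mem_P {n a b : ℕ} (h : a + b = n) : y₁ ^ a * y₂ ^ b ∈ P A y₁ y₂ n :=
  subset_span ⟨1, Cen_one, a, b, h, by rw [one_mul]⟩

theorem mem_Q {n m a b : ℕ} (h : a + b = n) (h' : a ≤ m) : y₂ ^ a * y₁ ^ b ∈ Q A y₁ y₂ n m :=
  subset_span ⟨1, Cen_one, a, b, h, h', by rw [one_mul]⟩

include D in
/-- normal ordering, left version -/
theorem y₂_mul_mono (i j : ℕ) :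
    y₂ * (y₁ ^ i * y₂ ^ j) ∈ P A y₁ y₂ (i + j + 1) ⊔ F A y₁ y₂ (i + j) := by
  induction i with
  | zero =>
    apply mem_sup_left
    have : y₂ * (y₁ ^ 0 * y₂ ^ j) = y₁ ^ 0 * y₂ ^ (j + 1) := by simp [pow_succ']
    rw [this]
    exact mem_P (by omega)
  | succ i ih =>
    obtain ⟨t₁, t₂, t₀, hrel⟩ := D.rel
    have h1 : y₂ * (y₁ ^ (i + 1) * y₂ ^ j) = (D.p : B) * (y₁ * (y₂ * (y₁ ^ i * y₂ ^ j))) +
        D.q * (y₁ ^ (i + 2) * y₂ ^ j) +
        (t₁ * y₁ + t₂ * y₂ + t₀) * (y₁ ^ i * y₂ ^ j) := by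
      have : y₂ * (y₁ ^ (i + 1) * y₂ ^ j) = (y₂ * y₁) * (y₁ ^ i * y₂ ^ j) := by
        rw [pow_succ']; noncomm_ring
      rw [this, hrel, pow_succ', pow_succ']
      noncomm_ring
    rw [h1]
    obtain ⟨z, hz, w, hw, hzw⟩ := mem_sup.1 ih
    refine add_mem (add_mem ?_ ?_) ?_
    · rw [← hzw, mul_add, mul_add]
      refine add_mem (mem_sup_left ?_) (mem_sup_right ?_)
      · have := mul_P (k := (D.p : B)) ⟨D.p.2, D.p_comm⟩ (y₁_mul_P hz)
        convert this using 2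
        omega
      · have h2 := D.mul_mem_F (W_le_F_one (A := A) (y₂ := y₂) y₁_mem_W) hw
        have h3 := D.mul_mem_F (m := 0) (a := (D.p : B)) (by rw [F_zero]; exact D.p.2) h2
        convert h3 using 2
        omega
    · exact mem_sup_left (mul_P ⟨D.q.2, D.q_comm⟩ (mem_P (by omega)))
    · apply mem_sup_right
      have h2 : (t₁ * y₁ + t₂ * y₂ + t₀ : B) ∈ F A y₁ y₂ 1 := W_le_F_one ⟨t₁, t₂, t₀, rfl⟩
      have h3 := D.mul_mem_F h2 (D.mul_mem_F (D.pow₁_mem i) (D.pow₂_mem j))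
      convert h3 using 2
      omega

include D in
/-- normal ordering, right version -/
theorem mono_mul_y₂ (i j : ℕ) :
    (y₂ ^ i * y₁ ^ j) * y₂ ∈ Q A y₁ y₂ (i + j + 1) (i + j + 1) ⊔ F A y₁ y₂ (i + j) := by
  induction j with
  | zero =>
    apply mem_sup_left
    have : (y₂ ^ i * y₁ ^ 0) * y₂ = y₂ ^ (i + 1) * y₁ ^ 0 := by simp [pow_succ]
    rw [this]
    exact mem_Q (by omega) (by omega)
  | succ j ih =>
    obtain ⟨t₁, t₂, t₀, hrel⟩ := D.rel'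
    have hp := D.p'_comm
    have hq := D.q'_comm
    have h1 : (y₂ ^ i * y₁ ^ (j + 1)) * y₂ = (D.p' : B) * (((y₂ ^ i * y₁ ^ j) * y₂) * y₁) +
        D.q' * (y₂ ^ i * y₁ ^ (j + 2)) +
        (y₂ ^ i * y₁ ^ j) * (y₁ * t₁ + y₂ * t₂ + t₀) := by
      have e1 : (y₂ ^ i * y₁ ^ (j + 1)) * y₂ = (y₂ ^ i * y₁ ^ j) * (y₁ * y₂) := by
        rw [pow_succ]; noncomm_ring
      have e2 : (y₂ ^ i * y₁ ^ j) * ((D.p' : B) * (y₂ * y₁)) =
          (D.p' : B) * (((y₂ ^ i * y₁ ^ j) * y₂) * y₁) := by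
        rw [← mul_assoc, ← hp]; noncomm_ring
      have e3 : (y₂ ^ i * y₁ ^ j) * ((D.q' : B) * (y₁ * y₁)) =
          (D.q' : B) * (y₂ ^ i * y₁ ^ (j + 2)) := by
        rw [← mul_assoc, ← hq, pow_succ, pow_succ]; noncomm_ring
      rw [e1, hrel, ← e2, ← e3]
      noncomm_ring
    rw [h1]
    obtain ⟨z, hz, w, hw, hzw⟩ := mem_sup.1 ih
    refine add_mem (add_mem ?_ ?_) ?_
    · rw [← hzw, add_mul, mul_add]
      refine add_mem (mem_sup_left ?_) (mem_sup_right ?_)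
      · have := mul_Q (k := (D.p' : B)) ⟨D.p'.2, D.p'_comm⟩ (Q_mul_y₁ hz)
        exact Q_mono (by omega) this
      · have h2 := D.mul_mem_F hw (W_le_F_one (A := A) (y₂ := y₂) y₁_mem_W)
        have h3 := D.mul_mem_F (m := 0) (a := (D.p' : B)) (by rw [F_zero]; exact D.p'.2) h2
        convert h3 using 2
        omega
    · exact mem_sup_left (mul_Q ⟨D.q'.2, D.q'_comm⟩ (mem_Q (by omega) (by omega)))
    · apply mem_sup_right
      have h2 : (y₁ * t₁ + y₂ * t₂ + t₀ : B) ∈ F A y₁ y₂ 1 := by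
        apply W_le_F_one
        rw [D.W_eq]
        exact ⟨t₁, t₂, t₀, rfl⟩
      have h3 := D.mul_mem_F (D.mul_mem_F (D.pow₂_mem i) (D.pow₁_mem j)) h2
      exact h3

include D in
/-- multiplying by `y₁` on the left does not raise the exponent of `y₂` -/
theorem y₁_mul_mono (a : ℕ) : ∀ b : ℕ,
    y₁ * (y₂ ^ a * y₁ ^ b) ∈ Q A y₁ y₂ (a + b + 1) a ⊔ F A y₁ y₂ (a + b) := by
  induction a using Nat.strong_induction_on with
  | _ a ih =>
    intro b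
    cases a with
    | zero =>
      apply mem_sup_left
      have : y₁ * (y₂ ^ 0 * y₁ ^ b) = y₂ ^ 0 * y₁ ^ (b + 1) := by simp [pow_succ']
      rw [this]
      exact mem_Q (by omega) (by omega)
    | succ a =>
      obtain ⟨t₁, t₂, t₀, hrel⟩ := D.rel'
      have h1 : y₁ * (y₂ ^ (a + 1) * y₁ ^ b) = (D.p' : B) * (y₂ * (y₁ * (y₂ ^ a * y₁ ^ b))) +
          D.q' * (y₁ * (y₁ * (y₂ ^ a * y₁ ^ b))) +
          (y₁ * t₁ + y₂ * t₂ + t₀) * (y₂ ^ a * y₁ ^ b) := by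
        have : y₁ * (y₂ ^ (a + 1) * y₁ ^ b) = (y₁ * y₂) * (y₂ ^ a * y₁ ^ b) := by
          rw [pow_succ']; noncomm_ring
        rw [this, hrel]
        noncomm_ring
      rw [h1]
      have iha := ih a (by omega) b
      obtain ⟨z, hz, w, hw, hzw⟩ := mem_sup.1 iha
      -- y₁ * Q
      have hyQ : ∀ z, z ∈ Q A y₁ y₂ (a + b + 1) a →
          y₁ * z ∈ Q A y₁ y₂ (a + 1 + b + 1) (a + 1) ⊔ F A y₁ y₂ (a + 1 + b) := by
        intro z hz
        refine Submodule.span_induction ?_ ?_ ?_ ?_ hz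
        · rintro _ ⟨l, hl, c, d, hcd, hca, rfl⟩
          have e1 : y₁ * (l * (y₂ ^ c * y₁ ^ d)) = l * (y₁ * (y₂ ^ c * y₁ ^ d)) := by
            rw [← mul_assoc, ← hl.2, mul_assoc]
          rw [e1]
          obtain ⟨z', hz', w', hw', hzw'⟩ := mem_sup.1 (ih c (by omega) d)
          rw [← hzw', mul_add]
          refine add_mem (mem_sup_left ?_) (mem_sup_right ?_)
          · have h3 := Q_mono (show c ≤ a + 1 by omega) (mul_Q hl hz')
            convert h3 using 2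
            omega
          · have h3 := D.mul_mem_F (m := 0) (a := l) (by rw [F_zero]; exact hl.1) hw'
            convert h3 using 2
            omega
        · rw [mul_zero]; exact zero_mem _
        · intro x y _ _ hx hy; rw [mul_add]; exact add_mem hx hy
        · intro c x _ hx; rw [mul_smul_comm]; exact smul_mem _ _ hx
      have hlift : ∀ (k : B), k ∈ Cen A → ∀ x,
          x ∈ Q A y₁ y₂ (a + 1 + b + 1) (a + 1) ⊔ F A y₁ y₂ (a + 1 + b) →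
          k * x ∈ Q A y₁ y₂ (a + 1 + b + 1) (a + 1) ⊔ F A y₁ y₂ (a + 1 + b) := by
        intro k hk x hx
        obtain ⟨z', hz', w', hw', rfl⟩ := mem_sup.1 hx
        rw [mul_add]
        refine add_mem (mem_sup_left (mul_Q hk hz')) (mem_sup_right ?_)
        have h3 := D.mul_mem_F (m := 0) (a := k) (by rw [F_zero]; exact hk.1) hw'
        convert h3 using 2
        omega
      have hyF : ∀ y ∈ W A y₁ y₂, ∀ w ∈ F A y₁ y₂ (a + b), y * w ∈ F A y₁ y₂ (a + 1 + b) := by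
        intro y hy w hw
        have h3 := D.mul_mem_F (W_le_F_one hy) hw
        convert h3 using 2
        omega
      refine add_mem (add_mem ?_ ?_) ?_
      · apply hlift _ ⟨D.p'.2, D.p'_comm⟩
        rw [← hzw, mul_add]
        refine add_mem (mem_sup_left ?_) (mem_sup_right (hyF _ y₂_mem_W _ hw))
        have := y₂_mul_Q hz
        convert this using 2
        omega
      · apply hlift _ ⟨D.q'.2, D.q'_comm⟩
        rw [← hzw, mul_add]
        exact add_mem (hyQ z hz) (mem_sup_right (hyF _ y₁_mem_W _ hw))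
      · apply mem_sup_right
        have h2 : (y₁ * t₁ + y₂ * t₂ + t₀ : B) ∈ W A y₁ y₂ := by
          rw [D.W_eq]
          exact ⟨t₁, t₂, t₀, rfl⟩
        exact hyF _ h2 _ (D.mul_mem_F (D.pow₂_mem a) (D.pow₁_mem b))


/-- left spans -/
def L (A : Subring B) (y₁ y₂ : B) (n : ℕ) : Submodule ℤ B :=
  span ℤ {z | ∃ a : A, ∃ i j : ℕ, i + j < n ∧ z = a * (y₁ ^ i * y₂ ^ j)}

/-- right spans -/
def R (A : Subring B) (y₁ y₂ : B) (n : ℕ) : Submodule ℤ B :=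
  span ℤ {z | ∃ a : A, ∃ i j : ℕ, i + j < n ∧ z = y₂ ^ i * y₁ ^ j * a}

theorem L_mono {m n : ℕ} (h : m ≤ n) : L A y₁ y₂ m ≤ L A y₁ y₂ n := by
  apply span_mono
  rintro _ ⟨a, i, j, hij, rfl⟩
  exact ⟨a, i, j, by omega, rfl⟩

theorem R_mono {m n : ℕ} (h : m ≤ n) : R A y₁ y₂ m ≤ R A y₁ y₂ n := by
  apply span_mono
  rintro _ ⟨a, i, j, hij, rfl⟩
  exact ⟨a, i, j, by omega, rfl⟩

theorem mem_L {n i j : ℕ} (a : A) (h : i + j < n) : (a : B) * (y₁ ^ i * y₂ ^ j) ∈ L A y₁ y₂ n :=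
  subset_span ⟨a, i, j, h, rfl⟩

theorem mem_R {n i j : ℕ} (a : A) (h : i + j < n) : y₂ ^ i * y₁ ^ j * (a : B) ∈ R A y₁ y₂ n :=
  subset_span ⟨a, i, j, h, rfl⟩

theorem AA_mul_L {n : ℕ} {z : B} (a : A) (hz : z ∈ L A y₁ y₂ n) : (a : B) * z ∈ L A y₁ y₂ n := by
  refine Submodule.span_induction ?_ ?_ ?_ ?_ hz
  · rintro _ ⟨b, i, j, hij, rfl⟩
    have := mem_L (y₁ := y₁) (y₂ := y₂) (a * b) hij
    convert this using 1
    push_cast; noncomm_ring
  · rw [mul_zero]; exact zero_mem _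
  · intro x y _ _ hx hy; rw [mul_add]; exact add_mem hx hy
  · intro c x _ hx; rw [mul_smul_comm]; exact smul_mem _ _ hx

theorem R_mul_AA {n : ℕ} {z : B} (a : A) (hz : z ∈ R A y₁ y₂ n) : z * (a : B) ∈ R A y₁ y₂ n := by
  refine Submodule.span_induction ?_ ?_ ?_ ?_ hz
  · rintro _ ⟨b, i, j, hij, rfl⟩
    have := mem_R (y₁ := y₁) (y₂ := y₂) (b * a) hij
    convert this using 1
    push_cast; noncomm_ring
  · rw [zero_mul]; exact zero_mem _
  · intro x y _ _ hx hy; rw [add_mul]; exact add_mem hx hy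
  · intro c x _ hx; rw [smul_mul_assoc]; exact smul_mem _ _ hx

theorem P_le_L (n : ℕ) : P A y₁ y₂ n ≤ L A y₁ y₂ (n + 1) := by
  rw [P, span_le]
  rintro _ ⟨k, hk, a, b, hab, rfl⟩
  exact mem_L ⟨k, hk.1⟩ (by omega)

theorem Q_le_R (n m : ℕ) : Q A y₁ y₂ n m ≤ R A y₁ y₂ (n + 1) := by
  rw [Q, span_le]
  rintro _ ⟨k, hk, a, b, hab, ham, rfl⟩
  rw [hk.2]
  exact mem_R ⟨k, hk.1⟩ (by omega)

include D in
theorem L_le_F (n : ℕ) : L A y₁ y₂ (n + 1) ≤ F A y₁ y₂ n := by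
  rw [L, span_le]
  rintro _ ⟨a, i, j, hij, rfl⟩
  have h1 := D.mul_mem_F (m := 0) (a := (a : B)) (by rw [F_zero]; exact a.2)
    (D.mul_mem_F (D.pow₁_mem i) (D.pow₂_mem j))
  exact F_mono (by omega) h1

include D in
theorem R_le_F (n : ℕ) : R A y₁ y₂ (n + 1) ≤ F A y₁ y₂ n := by
  rw [R, span_le]
  rintro _ ⟨a, i, j, hij, rfl⟩
  have h1 := D.mul_mem_F (n := 0) (b := (a : B)) (D.mul_mem_F (D.pow₂_mem i) (D.pow₁_mem j))
    (by rw [F_zero]; exact a.2)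
  exact F_mono (by omega) h1

theorem F_succ_le (n : ℕ) : F A y₁ y₂ (n + 1) ≤ W A y₁ y₂ * F A y₁ y₂ n := by
  calc F A y₁ y₂ (n + 1) = (AA A * W A y₁ y₂) * W A y₁ y₂ ^ n := by
        simp only [F, pow_succ', mul_assoc]
    _ ≤ W A y₁ y₂ * W A y₁ y₂ ^ n := mul_le_mul' AA_mul_W le_rfl
    _ = W A y₁ y₂ * (1 * W A y₁ y₂ ^ n) := by rw [one_mul]
    _ ≤ _ := mul_le_mul' le_rfl (mul_le_mul' one_le_AA le_rfl)

theorem F_succ_eq (n : ℕ) : F A y₁ y₂ (n + 1) = F A y₁ y₂ n * W A y₁ y₂ := by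
  simp only [F, pow_succ, mul_assoc]

include D in
theorem F_le_L (n : ℕ) : F A y₁ y₂ n ≤ L A y₁ y₂ (n + 1) := by
  induction n using Nat.strong_induction_on with
  | _ n ih =>
    cases n with
    | zero =>
      rw [F_zero]
      intro a ha
      have := mem_L (y₁ := y₁) (y₂ := y₂) (n := 1) (i := 0) (j := 0) ⟨a, ha⟩ (by omega)
      simpa using this
    | succ n =>
      refine (F_succ_le n).trans ((mul_le_mul' le_rfl (ih n (by omega))).trans ?_)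
      rw [Submodule.mul_le]
      intro w hw z hz
      refine Submodule.span_induction ?_ ?_ ?_ ?_ hz
      · rintro _ ⟨b, i, j, hij, rfl⟩
        have hwb : w * b ∈ W A y₁ y₂ := D.W_mul_AA (Submodule.mul_mem_mul hw b.2)
        rw [← mul_assoc]
        obtain ⟨c₁, c₂, c₀, hc⟩ := hwb
        rw [hc]
        have e1 : (c₁ * y₁ + c₂ * y₂ + c₀ : B) * (y₁ ^ i * y₂ ^ j) =
            c₁ * (y₁ ^ (i + 1) * y₂ ^ j) + c₂ * (y₂ * (y₁ ^ i * y₂ ^ j)) +
              c₀ * (y₁ ^ i * y₂ ^ j) := by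
          rw [pow_succ' y₁ i]; noncomm_ring
        rw [e1]
        refine add_mem (add_mem (mem_L c₁ (by omega)) (AA_mul_L c₂ ?_)) (mem_L c₀ (by omega))
        have h1 := D.y₂_mul_mono i j
        have h2 : P A y₁ y₂ (i + j + 1) ⊔ F A y₁ y₂ (i + j) ≤ L A y₁ y₂ (n + 1 + 1) := by
          refine sup_le ((P_le_L _).trans (L_mono (by omega))) ((ih _ (by omega)).trans
            (L_mono (by omega)))
        exact h2 h1
      · rw [mul_zero]; exact zero_mem _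
      · intro x y _ _ hx hy; rw [mul_add]; exact add_mem hx hy
      · intro c x _ hx; rw [mul_smul_comm]; exact smul_mem _ _ hx

include D in
theorem F_le_R (n : ℕ) : F A y₁ y₂ n ≤ R A y₁ y₂ (n + 1) := by
  induction n using Nat.strong_induction_on with
  | _ n ih =>
    cases n with
    | zero =>
      rw [F_zero]
      intro a ha
      have := mem_R (y₁ := y₁) (y₂ := y₂) (n := 1) (i := 0) (j := 0) ⟨a, ha⟩ (by omega)
      simpa using this
    | succ n =>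
      rw [F_succ_eq]
      refine (mul_le_mul' (ih n (by omega)) le_rfl).trans ?_
      rw [Submodule.mul_le]
      intro z hz w hw
      refine Submodule.span_induction ?_ ?_ ?_ ?_ hz
      · rintro _ ⟨b, i, j, hij, rfl⟩
        have hwb : (b : B) * w ∈ W A y₁ y₂ := AA_mul_W (Submodule.mul_mem_mul b.2 hw)
        rw [mul_assoc]
        rw [D.W_eq] at hwb
        obtain ⟨c₁, c₂, c₀, hc⟩ := hwb
        rw [hc]
        have e1 : (y₂ ^ i * y₁ ^ j) * (y₁ * c₁ + y₂ * c₂ + c₀ : B) =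
            y₂ ^ i * y₁ ^ (j + 1) * c₁ + (y₂ ^ i * y₁ ^ j * y₂) * c₂ +
              y₂ ^ i * y₁ ^ j * c₀ := by
          rw [pow_succ y₁ j]; noncomm_ring
        rw [e1]
        refine add_mem (add_mem (mem_R c₁ (by omega)) (R_mul_AA c₂ ?_)) (mem_R c₀ (by omega))
        have h1 := D.mono_mul_y₂ i j
        have h2 : Q A y₁ y₂ (i + j + 1) (i + j + 1) ⊔ F A y₁ y₂ (i + j) ≤
            R A y₁ y₂ (n + 1 + 1) := by
          refine sup_le ((Q_le_R _ _).trans (R_mono (by omega))) ((ih _ (by omega)).trans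
            (R_mono (by omega)))
        exact h2 h1
      · rw [zero_mul]; exact zero_mem _
      · intro x y _ _ hx hy; rw [add_mul]; exact add_mem hx hy
      · intro c x _ hx; rw [smul_mul_assoc]; exact smul_mem _ _ hx

include D in
theorem F_eq_L (n : ℕ) : F A y₁ y₂ n = L A y₁ y₂ (n + 1) :=
  le_antisymm (D.F_le_L n) (D.L_le_F n)

include D in
theorem F_eq_R (n : ℕ) : F A y₁ y₂ n = R A y₁ y₂ (n + 1) :=
  le_antisymm (D.F_le_R n) (D.R_le_F n)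

theorem L_zero : L A y₁ y₂ 0 = ⊥ := by
  rw [L, span_eq_bot]
  rintro _ ⟨a, i, j, hij, rfl⟩
  omega

theorem R_zero : R A y₁ y₂ 0 = ⊥ := by
  rw [R, span_eq_bot]
  rintro _ ⟨a, i, j, hij, rfl⟩
  omega

include D in
theorem L_eq_R (n : ℕ) : L A y₁ y₂ n = R A y₁ y₂ n := by
  cases n with
  | zero => rw [L_zero, R_zero]
  | succ n => rw [← D.F_eq_L, ← D.F_eq_R]

include D in
theorem F_mul_L {m n : ℕ} {a b : B} (ha : a ∈ F A y₁ y₂ m) (hb : b ∈ L A y₁ y₂ n) :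
    a * b ∈ L A y₁ y₂ (m + n) := by
  cases n with
  | zero =>
    rw [L_zero, Submodule.mem_bot] at hb
    rw [hb, mul_zero]; exact zero_mem _
  | succ n =>
    rw [← D.F_eq_L] at hb
    have := D.mul_mem_F ha hb
    rw [D.F_eq_L] at this
    exact this

/-! ### right coordinates -/

/-- right coordinates -/
noncomputable def rEquiv : (ℕ × ℕ →₀ A) ≃+ B :=
  AddEquiv.ofBijective
    ({ toFun := fun c => c.sum fun m a => y₂ ^ m.1 * y₁ ^ m.2 * (a : B)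
       map_zero' := Finsupp.sum_zero_index
       map_add' := fun c d => by
        rw [Finsupp.sum_add_index']
        · intro m; simp
        · intro m a b; push_cast; rw [mul_add] } : (ℕ × ℕ →₀ A) →+ B) D.right_basis

theorem rEquiv_apply (c : ℕ × ℕ →₀ A) :
    D.rEquiv c = c.sum fun m a => y₂ ^ m.1 * y₁ ^ m.2 * (a : B) := rfl

theorem rEquiv_single (m : ℕ × ℕ) (a : A) :
    D.rEquiv (Finsupp.single m a) = y₂ ^ m.1 * y₁ ^ m.2 * (a : B) := by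
  rw [rEquiv_apply, Finsupp.sum_single_index]; simp

theorem mem_R_iff (n : ℕ) (b : B) :
    b ∈ R A y₁ y₂ n ↔ ∀ m : ℕ × ℕ, n ≤ m.1 + m.2 → D.rEquiv.symm b m = 0 := by
  constructor
  · intro hb
    refine Submodule.span_induction ?_ ?_ ?_ ?_ hb
    · rintro _ ⟨a, i, j, hij, rfl⟩ m hm
      have : D.rEquiv.symm (y₂ ^ i * y₁ ^ j * (a : B)) = Finsupp.single (i, j) a := by
        rw [← D.rEquiv_single (i, j) a, AddEquiv.symm_apply_apply]
      rw [this, Finsupp.single_apply, if_neg]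
      rintro rfl
      simp only at hm
      omega
    · intro m _; simp
    · intro x y _ _ hx hy m hm
      rw [map_add, Finsupp.add_apply, hx m hm, hy m hm, add_zero]
    · intro c x _ hx m hm
      rw [map_zsmul, Finsupp.smul_apply, hx m hm, smul_zero]
  · intro h
    have h1 : b = D.rEquiv (D.rEquiv.symm b) := by simp
    rw [h1, rEquiv_apply]
    refine sum_mem (fun m hm => ?_)
    apply mem_R
    by_contra hcon
    rw [Finsupp.mem_support_iff] at hm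
    exact hm (h m (by omega))

theorem symm_y₂_mul (b : B) :
    D.rEquiv.symm (y₂ * b) =
      Finsupp.mapDomain (fun m : ℕ × ℕ => (m.1 + 1, m.2)) (D.rEquiv.symm b) := by
  rw [AddEquiv.symm_apply_eq, rEquiv_apply, Finsupp.sum_mapDomain_index]
  · conv_lhs => rw [← D.rEquiv.apply_symm_apply b, rEquiv_apply, Finsupp.mul_sum]
    refine Finsupp.sum_congr (fun m _ => ?_)
    rw [pow_succ']; noncomm_ring
  · intro m; simp
  · intro m a a'; push_cast; rw [mul_add]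

theorem inj_shift : Function.Injective (fun m : ℕ × ℕ => (m.1 + 1, m.2)) := by
  rintro ⟨a, b⟩ ⟨c, d⟩ h
  simp only [Prod.mk.injEq] at h
  ext <;> simp <;> omega

theorem symm_y₂_mul_succ (b : B) (i j : ℕ) :
    D.rEquiv.symm (y₂ * b) (i + 1, j) = D.rEquiv.symm b (i, j) := by
  rw [symm_y₂_mul]
  exact Finsupp.mapDomain_apply inj_shift _ (i, j)

theorem symm_y₂_mul_zero (b : B) (j : ℕ) :
    D.rEquiv.symm (y₂ * b) (0, j) = 0 := by
  rw [symm_y₂_mul]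
  apply Finsupp.mapDomain_of_notMem_range
  rintro ⟨⟨a, b⟩, h⟩
  simp only [Prod.mk.injEq] at h
  omega

include D in
theorem nondeg {n : ℕ} {r : B} (h : y₂ * r ∈ L A y₁ y₂ (n + 1)) : r ∈ L A y₁ y₂ n := by
  rw [D.L_eq_R, D.mem_R_iff] at h ⊢
  rintro ⟨i, j⟩ hij
  rw [← symm_y₂_mul_succ]
  apply h
  simp only at hij ⊢
  omega

/-- first coefficient of the relation -/
def w₁ : B := y₂ - (D.q' : B) * y₁
/-- second coefficient of the relation -/
def w₂ : B := - ((D.p' : B) * y₁)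

/-- the normal form used for exactness -/
def T (n : ℕ) : Submodule ℤ B where
  carrier := {u | ∃ r ∈ L A y₁ y₂ n, ∃ c : A, ∃ e ∈ L A y₁ y₂ n, u = D.w₁ * r + y₁ ^ n * c + e}
  zero_mem' := ⟨0, zero_mem _, 0, 0, zero_mem _, by simp⟩
  add_mem' := by
    rintro _ _ ⟨r, hr, c, e, he, rfl⟩ ⟨r', hr', c', e', he', rfl⟩
    exact ⟨r + r', add_mem hr hr', c + c', e + e', add_mem he he', by push_cast; noncomm_ring⟩
  smul_mem' := by
    rintro z _ ⟨r, hr, c, e, he, rfl⟩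
    exact ⟨z • r, smul_mem _ _ hr, z • c, z • e, smul_mem _ _ he, by
      push_cast; simp only [smul_add, mul_smul_comm]⟩

include D in
theorem L_mul_AA {n : ℕ} {z : B} (a : A) (hz : z ∈ L A y₁ y₂ n) : z * (a : B) ∈ L A y₁ y₂ n := by
  rw [D.L_eq_R] at hz ⊢
  exact R_mul_AA a hz

theorem T_mul_AA {n : ℕ} {z : B} (a : A) (hz : z ∈ D.T n) : z * (a : B) ∈ D.T n := by
  obtain ⟨r, hr, c, e, he, rfl⟩ := hz
  exact ⟨r * a, D.L_mul_AA a hr, c * a, e * a, D.L_mul_AA a he, by push_cast; noncomm_ring⟩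

theorem Cen_mul_T {n : ℕ} {z k : B} (hk : k ∈ Cen A) (hz : z ∈ D.T n) : k * z ∈ D.T n := by
  obtain ⟨r, hr, c, e, he, rfl⟩ := hz
  refine ⟨k * r, AA_mul_L ⟨k, hk.1⟩ hr, ⟨k, hk.1⟩ * c, k * e, AA_mul_L ⟨k, hk.1⟩ he, ?_⟩
  have h1 := hk.2 D.w₁
  have h2 := hk.2 (y₁ ^ n)
  push_cast
  rw [mul_add, mul_add, ← mul_assoc, h1, mul_assoc, ← mul_assoc k (y₁ ^ n), h2]
  noncomm_ring

theorem mono_mem_T (n : ℕ) : ∀ a b : ℕ, a + b = n → y₂ ^ a * y₁ ^ b ∈ D.T n := by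
  intro a
  induction a using Nat.strong_induction_on with
  | _ a ih =>
    intro b hab
    cases a with
    | zero =>
      refine ⟨0, zero_mem _, 1, 0, zero_mem _, ?_⟩
      have : b = n := by omega
      simp [this]
    | succ a =>
      have hmem : y₂ ^ a * y₁ ^ b ∈ L A y₁ y₂ n := by
        have := D.mul_mem_F (D.pow₂_mem a) (D.pow₁_mem b)
        rw [D.F_eq_L] at this
        convert this using 2
        omega
      have e1 : y₂ ^ (a + 1) * y₁ ^ b =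
          D.w₁ * (y₂ ^ a * y₁ ^ b) + (D.q' : B) * (y₁ * (y₂ ^ a * y₁ ^ b)) := by
        rw [w₁, pow_succ']; noncomm_ring
      rw [e1]
      refine add_mem ⟨_, hmem, 0, 0, zero_mem _, by simp⟩
        (D.Cen_mul_T ⟨D.q'.2, D.q'_comm⟩ ?_)
      have h1 := D.y₁_mul_mono a b
      have h2 : Q A y₁ y₂ (a + b + 1) a ⊔ F A y₁ y₂ (a + b) ≤ D.T n := by
        refine sup_le ?_ ?_
        · rw [Q, span_le]
          rintro _ ⟨k, hk, c, d, hcd, hca, rfl⟩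
          exact D.Cen_mul_T hk (ih c (by omega) d (by omega))
        · intro z hz
          refine ⟨0, zero_mem _, 0, z, ?_, by simp⟩
          rw [D.F_eq_L] at hz
          convert hz using 2
          omega
      exact h2 h1

theorem L_succ_le_T (n : ℕ) : L A y₁ y₂ (n + 1) ≤ D.T n := by
  rw [D.L_eq_R, R, span_le]
  rintro _ ⟨a, i, j, hij, rfl⟩
  by_cases h : i + j = n
  · exact D.T_mul_AA a (D.mono_mem_T n i j h)
  · refine ⟨0, zero_mem _, 0, y₂ ^ i * y₁ ^ j * a, ?_, by simp⟩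
    rw [D.L_eq_R]
    exact mem_R a (by omega)

/-- exactness -/
theorem exact {n : ℕ} {u₁ u₂ : B} (h₁ : u₁ ∈ L A y₁ y₂ (n + 1))
    (h : y₁ * u₁ + y₂ * u₂ ∈ L A y₁ y₂ (n + 1)) :
    ∃ r ∈ L A y₁ y₂ n, u₁ - D.w₁ * r ∈ L A y₁ y₂ n ∧ u₂ - D.w₂ * r ∈ L A y₁ y₂ n := by
  obtain ⟨r, hr, c, e, he, hu⟩ := D.L_succ_le_T n h₁
  obtain ⟨t₁, t₂, t₀, hrel⟩ := D.rel'
  have e1 : y₁ * D.w₁ = - (y₂ * D.w₂) + (y₁ * t₁ + y₂ * t₂ + t₀) := by
    have hp : y₂ * (D.p' : B) = (D.p' : B) * y₂ := (D.p'_comm _).symm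
    have hq : y₁ * (D.q' : B) = (D.q' : B) * y₁ := (D.q'_comm _).symm
    rw [w₁, w₂, mul_sub, hrel, ← mul_assoc y₁, hq, mul_neg, ← mul_assoc y₂, hp]
    noncomm_ring
  have hW : (y₁ * t₁ + y₂ * t₂ + t₀ : B) ∈ F A y₁ y₂ 1 := by
    apply W_le_F_one
    rw [D.W_eq]
    exact ⟨t₁, t₂, t₀, rfl⟩
  have e2 : y₂ * (u₂ - D.w₂ * r) + y₁ ^ (n + 1) * c =
      (y₁ * u₁ + y₂ * u₂) - (y₁ * t₁ + y₂ * t₂ + t₀) * r - y₁ * e := by
    rw [hu]
    have : y₁ * (D.w₁ * r) = - (y₂ * (D.w₂ * r)) + (y₁ * t₁ + y₂ * t₂ + t₀) * r := by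
      rw [← mul_assoc, e1]; noncomm_ring
    rw [mul_add, mul_add, this, pow_succ']
    noncomm_ring
  have h3 : y₂ * (u₂ - D.w₂ * r) + y₁ ^ (n + 1) * c ∈ L A y₁ y₂ (n + 1) := by
    rw [e2]
    refine sub_mem (sub_mem h ?_) ?_
    · have := D.F_mul_L hW hr
      rwa [Nat.add_comm 1 n] at this
    · have := D.F_mul_L (W_le_F_one (A := A) (y₂ := y₂) y₁_mem_W) he
      rwa [Nat.add_comm 1 n] at this
  have h4 : u₂ - D.w₂ * r ∈ L A y₁ y₂ n := by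
    rw [D.L_eq_R, D.mem_R_iff] at h3 ⊢
    rintro ⟨i, j⟩ hij
    have h5 := h3 (i + 1, j) (by simp only at hij ⊢; omega)
    rw [map_add, Finsupp.add_apply, symm_y₂_mul_succ] at h5
    have h6 : D.rEquiv.symm (y₁ ^ (n + 1) * (c : B)) = Finsupp.single (0, n + 1) c := by
      rw [AddEquiv.symm_apply_eq, rEquiv_single]; simp
    rw [h6, Finsupp.single_apply, if_neg (by simp), add_zero] at h5
    exact h5
  have hc : c = 0 := by
    rw [D.L_eq_R, D.mem_R_iff] at h3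
    have h5 := h3 (0, n + 1) (by simp)
    rw [map_add, Finsupp.add_apply, symm_y₂_mul_zero] at h5
    have h6 : D.rEquiv.symm (y₁ ^ (n + 1) * (c : B)) = Finsupp.single (0, n + 1) c := by
      rw [AddEquiv.symm_apply_eq, rEquiv_single]; simp
    rw [h6, Finsupp.single_apply, if_pos rfl, zero_add] at h5
    exact h5
  refine ⟨r, hr, ?_, h4⟩
  rw [hu, hc]
  simpa using he


/-! ### left coordinates -/

/-- left coordinates -/
noncomputable def lEquiv : (ℕ × ℕ →₀ A) ≃ₗ[A] B :=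
  LinearEquiv.ofBijective
    ({ toFun := fun c => c.sum fun m a => (a : B) * (y₁ ^ m.1 * y₂ ^ m.2)
       map_add' := fun c d => by
        rw [Finsupp.sum_add_index']
        · intro m; simp
        · intro m a b; push_cast; rw [add_mul]
       map_smul' := fun a c => by
        rw [Finsupp.sum_smul_index' (fun m => by simp), Finsupp.smul_sum]
        refine Finsupp.sum_congr (fun m _ => ?_)
        simp only [smul_eq_mul, RingHom.id_apply, Subring.smul_def, Subring.coe_mul, mul_assoc] } :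
      (ℕ × ℕ →₀ A) →ₗ[A] B) D.left_basis

theorem lEquiv_apply (c : ℕ × ℕ →₀ A) :
    D.lEquiv c = c.sum fun m a => (a : B) * (y₁ ^ m.1 * y₂ ^ m.2) := rfl

theorem lEquiv_single (m : ℕ × ℕ) (a : A) :
    D.lEquiv (Finsupp.single m a) = (a : B) * (y₁ ^ m.1 * y₂ ^ m.2) := by
  rw [lEquiv_apply, Finsupp.sum_single_index]; simp

theorem mem_L_iff (n : ℕ) (b : B) :
    b ∈ L A y₁ y₂ n ↔ ∀ m : ℕ × ℕ, n ≤ m.1 + m.2 → D.lEquiv.symm b m = 0 := by
  constructor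
  · intro hb
    refine Submodule.span_induction ?_ ?_ ?_ ?_ hb
    · rintro _ ⟨a, i, j, hij, rfl⟩ m hm
      have : D.lEquiv.symm ((a : B) * (y₁ ^ i * y₂ ^ j)) = Finsupp.single (i, j) a := by
        rw [← D.lEquiv_single (i, j) a, LinearEquiv.symm_apply_apply]
      rw [this, Finsupp.single_apply, if_neg]
      rintro rfl
      simp only at hm
      omega
    · intro m _; simp
    · intro x y _ _ hx hy m hm
      rw [map_add, Finsupp.add_apply, hx m hm, hy m hm, add_zero]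
    · intro c x _ hx m hm
      rw [map_zsmul, Finsupp.smul_apply, hx m hm, smul_zero]
  · intro h
    have h1 : b = D.lEquiv (D.lEquiv.symm b) := by simp
    rw [h1, lEquiv_apply]
    refine sum_mem (fun m hm => ?_)
    apply mem_L
    by_contra hcon
    rw [Finsupp.mem_support_iff] at hm
    exact hm (h m (by omega))

/-- the filtration as left submodules -/
def E (A : Subring B) (y₁ y₂ : B) (n : ℕ) : Submodule A B where
  carrier := {b | b ∈ L A y₁ y₂ n}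
  zero_mem' := (L A y₁ y₂ n).zero_mem
  add_mem' := fun ha hb => (L A y₁ y₂ n).add_mem ha hb
  smul_mem' := fun a _ hb => AA_mul_L a hb

theorem mem_E {n : ℕ} {b : B} : b ∈ E A y₁ y₂ n ↔ b ∈ L A y₁ y₂ n := Iff.rfl

/-- the index set -/
def idx (n : ℕ) : Finset (ℕ × ℕ) := (Finset.range n).biUnion Finset.HasAntidiagonal.antidiagonal

theorem mem_idx {n : ℕ} {m : ℕ × ℕ} : m ∈ idx n ↔ m.1 + m.2 < n := by
  simp [idx]

theorem card_idx_succ (n : ℕ) : (idx (n + 1)).card = (idx n).card + (n + 1) := by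
  have : idx (n + 1) = idx n ∪ Finset.HasAntidiagonal.antidiagonal n := by
    ext m
    rw [Finset.mem_union, mem_idx, mem_idx, Finset.HasAntidiagonal.mem_antidiagonal]
    omega
  rw [this, Finset.card_union_of_disjoint, Finset.Nat.card_antidiagonal]
  rw [Finset.disjoint_left]
  intro m hm hm'
  rw [mem_idx] at hm
  rw [Finset.HasAntidiagonal.mem_antidiagonal] at hm'
  omega

include D in
theorem rank_E [StrongRankCondition A] (n : ℕ) :
    Module.rank A (E A y₁ y₂ n) = ((idx n).card : Cardinal) := by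
  have e : E A y₁ y₂ n = (Finsupp.supported A A (idx n : Set (ℕ × ℕ))).map D.lEquiv.toLinearMap := by
    ext b
    rw [mem_E, D.mem_L_iff, Submodule.mem_map]
    constructor
    · intro h
      refine ⟨D.lEquiv.symm b, ?_, by simp⟩
      rw [Finsupp.mem_supported]
      intro m hm
      rw [Finset.mem_coe, Finsupp.mem_support_iff] at hm
      rw [Finset.mem_coe, mem_idx]
      by_contra hcon
      exact hm (h m (by omega))
    · rintro ⟨c, hc, rfl⟩ m hm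
      have : D.lEquiv.symm (D.lEquiv.toLinearMap c) = c := by simp
      rw [this]
      by_contra hne
      rw [Finsupp.mem_supported] at hc
      have := hc (Finset.mem_coe.2 (Finsupp.mem_support_iff.2 hne))
      rw [Finset.mem_coe, mem_idx] at this
      omega
  rw [e]
  have e2 : Module.rank A ((Finsupp.supported A A (idx n : Set (ℕ × ℕ))).map
      D.lEquiv.toLinearMap) = Module.rank A (Finsupp.supported A A (idx n : Set (ℕ × ℕ))) :=
    (LinearEquiv.rank_eq (Submodule.equivMapOfInjective D.lEquiv.toLinearMap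
      D.lEquiv.injective _)).symm
  rw [e2]
  have e3 := LinearEquiv.lift_rank_eq (Finsupp.supportedEquivFinsupp (M := A) (R := A)
    (idx n : Set (ℕ × ℕ)))
  rw [rank_finsupp_self] at e3
  simp only [Cardinal.lift_id, Cardinal.mk_fintype, Cardinal.lift_natCast] at e3
  simpa using e3

include D in
theorem pp' [Nontrivial A] : (D.p' : B) * D.p = 1 ∧ (D.p' : B) * D.q + D.q' = 0 := by
  obtain ⟨t₁, t₂, t₀, hrel⟩ := D.rel
  obtain ⟨s₁, s₂, s₀, hrel'⟩ := D.rel'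
  -- y₁ y₂ = p' p y₁ y₂ + (p' q + q') y₁ y₁ + lower
  have h1 : ((1 - D.p' * D.p : A) : B) * (y₁ ^ 1 * y₂ ^ 1) +
      ((- (D.p' * D.q + D.q') : A) : B) * (y₁ ^ 2 * y₂ ^ 0) ∈ L A y₁ y₂ 2 := by
    have hW1 : (t₁ * y₁ + t₂ * y₂ + t₀ : B) ∈ W A y₁ y₂ := ⟨t₁, t₂, t₀, rfl⟩
    have hW2 : (y₁ * s₁ + y₂ * s₂ + s₀ : B) ∈ W A y₁ y₂ := by
      rw [D.W_eq]; exact ⟨s₁, s₂, s₀, rfl⟩
    have hW3 : (D.p' : B) * (t₁ * y₁ + t₂ * y₂ + t₀ : B) + (y₁ * s₁ + y₂ * s₂ + s₀ : B)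
        ∈ W A y₁ y₂ := add_mem (AA_mul_W (Submodule.mul_mem_mul D.p'.2 hW1)) hW2
    have h2 : ((1 - D.p' * D.p : A) : B) * (y₁ ^ 1 * y₂ ^ 1) +
        ((- (D.p' * D.q + D.q') : A) : B) * (y₁ ^ 2 * y₂ ^ 0) =
        (D.p' : B) * (t₁ * y₁ + t₂ * y₂ + t₀ : B) + (y₁ * s₁ + y₂ * s₂ + s₀ : B) := by
      have h3 : y₁ * y₂ = (D.p' : B) * ((D.p : B) * (y₁ * y₂) + D.q * (y₁ * y₁) +
          t₁ * y₁ + t₂ * y₂ + t₀) + D.q' * (y₁ * y₁) + y₁ * s₁ + y₂ * s₂ + s₀ := by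
        rw [← hrel]; exact hrel'
      push_cast
      rw [pow_one, pow_one, pow_two, pow_zero, mul_one]
      have h4 : y₁ * y₂ - (D.p' : B) * ((D.p : B) * (y₁ * y₂) + D.q * (y₁ * y₁) +
          t₁ * y₁ + t₂ * y₂ + t₀) - D.q' * (y₁ * y₁) - y₁ * s₁ - y₂ * s₂ - s₀ = 0 := by
        rw [sub_sub, sub_sub, sub_sub, sub_sub, sub_eq_zero]
        rw [← add_assoc, ← add_assoc, ← add_assoc]
        exact h3
      rw [← sub_eq_zero]
      rw [← h4]
      noncomm_ring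
    rw [h2]
    have := W_le_F_one hW3
    rwa [D.F_eq_L] at this
  rw [D.mem_L_iff] at h1
  have e1 : D.lEquiv.symm (((1 - D.p' * D.p : A) : B) * (y₁ ^ 1 * y₂ ^ 1) +
      ((- (D.p' * D.q + D.q') : A) : B) * (y₁ ^ 2 * y₂ ^ 0)) =
      Finsupp.single (1, 1) (1 - D.p' * D.p) + Finsupp.single (2, 0) (- (D.p' * D.q + D.q')) := by
    rw [LinearEquiv.symm_apply_eq, map_add, lEquiv_single, lEquiv_single]
  rw [e1] at h1
  have h2 := h1 (1, 1) (by simp)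
  have h3 := h1 (2, 0) (by simp)
  rw [Finsupp.add_apply, Finsupp.single_apply, Finsupp.single_apply, if_pos rfl,
    if_neg (by simp), add_zero] at h2
  rw [Finsupp.add_apply, Finsupp.single_apply, Finsupp.single_apply, if_neg (by simp),
    if_pos rfl, zero_add, neg_eq_zero] at h3
  constructor
  · have := congrArg (Subtype.val) h2
    push_cast at this
    exact (sub_eq_zero.1 this).symm
  · have := congrArg (Subtype.val) h3
    push_cast at this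
    exact this


theorem one_mem_L {n : ℕ} : (1 : B) ∈ L A y₁ y₂ (n + 1) := by
  have := mem_L (y₁ := y₁) (y₂ := y₂) (n := n + 1) (i := 0) (j := 0) (1 : A) (by omega)
  simpa using this

include D in
theorem mem_L_one_iff {b : B} : b ∈ L A y₁ y₂ 1 ↔ b ∈ A := by
  rw [← D.F_eq_L 0, F_zero]; exact mem_AA

include D in
theorem mem_L_two_iff {b : B} : b ∈ L A y₁ y₂ 2 ↔ b ∈ W A y₁ y₂ := by
  rw [← D.F_eq_L 1, F_one]

theorem w₁_mem : D.w₁ ∈ W A y₁ y₂ := ⟨- D.q', 1, 0, by rw [w₁]; push_cast; noncomm_ring⟩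
theorem w₂_mem : D.w₂ ∈ W A y₁ y₂ := ⟨- D.p', 0, 0, by rw [w₂]; push_cast; noncomm_ring⟩

include D in
theorem left_indep {d₁ d₂ : A} (h : (d₁ : B) * y₁ + d₂ * y₂ ∈ L A y₁ y₂ 1) : d₁ = 0 ∧ d₂ = 0 := by
  rw [D.mem_L_iff] at h
  have e1 : D.lEquiv.symm ((d₁ : B) * y₁ + d₂ * y₂) =
      Finsupp.single (1, 0) d₁ + Finsupp.single (0, 1) d₂ := by
    rw [LinearEquiv.symm_apply_eq, map_add, lEquiv_single, lEquiv_single]; simp
  rw [e1] at h
  have h2 := h (1, 0) (by simp)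
  have h3 := h (0, 1) (by simp)
  rw [Finsupp.add_apply, Finsupp.single_apply, Finsupp.single_apply, if_pos rfl,
    if_neg (by simp), add_zero] at h2
  rw [Finsupp.add_apply, Finsupp.single_apply, Finsupp.single_apply, if_neg (by simp),
    if_pos rfl, zero_add] at h3
  exact ⟨h2, h3⟩

include D in
theorem right_indep {d₁ d₂ : A} (h : y₁ * (d₁ : B) + y₂ * d₂ ∈ L A y₁ y₂ 1) :
    d₁ = 0 ∧ d₂ = 0 := by
  rw [D.L_eq_R, D.mem_R_iff] at h
  have e1 : D.rEquiv.symm (y₁ * (d₁ : B) + y₂ * d₂) =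
      Finsupp.single (0, 1) d₁ + Finsupp.single (1, 0) d₂ := by
    rw [AddEquiv.symm_apply_eq, map_add, rEquiv_single, rEquiv_single]; simp
  rw [e1] at h
  have h2 := h (0, 1) (by simp)
  have h3 := h (1, 0) (by simp)
  rw [Finsupp.add_apply, Finsupp.single_apply, Finsupp.single_apply, if_pos rfl,
    if_neg (by simp), add_zero] at h2
  rw [Finsupp.add_apply, Finsupp.single_apply, Finsupp.single_apply, if_neg (by simp),
    if_pos rfl, zero_add] at h3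
  exact ⟨h2, h3⟩

include D in
/-- the relation generates a bimodule of rank one on the left -/
theorem twist_aux [Nontrivial A] (μ : A) : ∃ l : A, ∀ c₁₁ c₂₁ c₁₂ c₂₂ : A,
    (l : B) * y₁ - (y₁ * c₁₁ + y₂ * c₂₁) ∈ L A y₁ y₂ 1 →
    (l : B) * y₂ - (y₁ * c₁₂ + y₂ * c₂₂) ∈ L A y₁ y₂ 1 →
    (- ((D.p : B) * y₂ + D.q * y₁)) * μ -
        (c₁₁ * (- ((D.p : B) * y₂ + D.q * y₁)) + c₁₂ * y₁) ∈ L A y₁ y₂ 1 ∧
      y₁ * (μ : B) - (c₂₁ * (- ((D.p : B) * y₂ + D.q * y₁)) + c₂₂ * y₁) ∈ L A y₁ y₂ 1 := by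
  obtain ⟨t₁, t₂, t₀, hrel⟩ := D.rel
  -- v₁ = first coefficient, v₂ = y₁ second coefficient
  have hv₁ : (- ((D.p : B) * y₂ + D.q * y₁)) * μ ∈ W A y₁ y₂ :=
    D.W_mul_AA (Submodule.mul_mem_mul ⟨- D.q, - D.p, 0, by push_cast; noncomm_ring⟩ μ.2)
  have hv₂ : y₁ * (μ : B) ∈ W A y₁ y₂ := D.W_mul_AA (Submodule.mul_mem_mul y₁_mem_W μ.2)
  obtain ⟨h₁₁, h₁₂, h₁₀, hh₁⟩ := hv₁
  obtain ⟨h₂₁, h₂₂, h₂₀, hh₂⟩ := hv₂
  -- convert right to left
  have hf₁ : y₁ * (h₁₁ : B) + y₂ * h₂₁ ∈ W A y₁ y₂ := by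
    rw [D.W_eq]; exact ⟨h₁₁, h₂₁, 0, by simp⟩
  have hf₂ : y₁ * (h₁₂ : B) + y₂ * h₂₂ ∈ W A y₁ y₂ := by
    rw [D.W_eq]; exact ⟨h₁₂, h₂₂, 0, by simp⟩
  obtain ⟨f₁₁, f₂₁, f₀₁, hf₁⟩ := hf₁
  obtain ⟨f₁₂, f₂₂, f₀₂, hf₂⟩ := hf₂
  -- the sum lies in L 2
  have hsum : y₁ * ((- ((D.p : B) * y₂ + D.q * y₁)) * μ) + y₂ * (y₁ * (μ : B)) ∈ L A y₁ y₂ 2 := by
    have e1 : y₁ * ((- ((D.p : B) * y₂ + D.q * y₁)) * μ) + y₂ * (y₁ * (μ : B)) =
        (t₁ * y₁ + t₂ * y₂ + t₀) * μ := by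
      have hp : y₁ * (D.p : B) = (D.p : B) * y₁ := (D.p_comm _).symm
      have hq : y₁ * (D.q : B) = (D.q : B) * y₁ := (D.q_comm _).symm
      have e2 : y₁ * (- ((D.p : B) * y₂ + D.q * y₁)) =
          - ((D.p : B) * (y₁ * y₂) + D.q * (y₁ * y₁)) := by
        rw [mul_neg, mul_add, ← mul_assoc, hp, ← mul_assoc, hq]; noncomm_ring
      rw [← mul_assoc, ← mul_assoc, e2, hrel]
      noncomm_ring
    rw [e1]
    have := D.W_mul_AA (Submodule.mul_mem_mul (⟨t₁, t₂, t₀, rfl⟩ :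
      (t₁ * y₁ + t₂ * y₂ + t₀ : B) ∈ W A y₁ y₂) μ.2)
    rwa [D.mem_L_two_iff]
  have hy1L : ∀ a : A, y₁ * (a : B) ∈ L A y₁ y₂ 2 := fun a => by
    rw [D.mem_L_two_iff]; exact D.W_mul_AA (Submodule.mul_mem_mul y₁_mem_W a.2)
  have hy2L : ∀ a : A, y₂ * (a : B) ∈ L A y₁ y₂ 2 := fun a => by
    rw [D.mem_L_two_iff]; exact D.W_mul_AA (Submodule.mul_mem_mul y₂_mem_W a.2)
  have hay1L : ∀ a : A, (a : B) * y₁ ∈ L A y₁ y₂ 2 := fun a => by
    rw [D.mem_L_two_iff]; exact ⟨a, 0, 0, by simp⟩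
  have hay2L : ∀ a : A, (a : B) * y₂ ∈ L A y₁ y₂ 2 := fun a => by
    rw [D.mem_L_two_iff]; exact ⟨0, a, 0, by simp⟩
  have hcoef : ((f₁₁ + f₂₁ * D.q : A) : B) * (y₁ ^ 2 * y₂ ^ 0) +
      ((f₁₂ + f₂₁ * D.p : A) : B) * (y₁ ^ 1 * y₂ ^ 1) + (f₂₂ : B) * (y₁ ^ 0 * y₂ ^ 2)
        ∈ L A y₁ y₂ 2 := by
    have e1 : ((f₁₁ + f₂₁ * D.q : A) : B) * (y₁ ^ 2 * y₂ ^ 0) +
      ((f₁₂ + f₂₁ * D.p : A) : B) * (y₁ ^ 1 * y₂ ^ 1) + (f₂₂ : B) * (y₁ ^ 0 * y₂ ^ 2) =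
        (y₁ * ((- ((D.p : B) * y₂ + D.q * y₁)) * μ) + y₂ * (y₁ * (μ : B))) -
        (y₁ * h₁₀ + y₂ * h₂₀) - (f₀₁ * y₁ + f₀₂ * y₂) - (f₂₁ : B) * (t₁ * y₁ + t₂ * y₂ + t₀) := by
      have e2 : y₁ * ((- ((D.p : B) * y₂ + D.q * y₁)) * μ) + y₂ * (y₁ * (μ : B)) =
          (y₁ * (h₁₁ : B) + y₂ * h₂₁) * y₁ + (y₁ * (h₁₂ : B) + y₂ * h₂₂) * y₂ +
            (y₁ * h₁₀ + y₂ * h₂₀) := by
        rw [hh₁, hh₂]; noncomm_ring
      have e3 : (f₂₁ : B) * (y₂ * y₁) = (f₂₁ : B) * ((D.p : B) * (y₁ * y₂) + D.q * (y₁ * y₁)) +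
          (f₂₁ : B) * (t₁ * y₁ + t₂ * y₂ + t₀) := by
        rw [hrel]; noncomm_ring
      rw [e2, hf₁, hf₂]
      have e4 : (f₁₁ * y₁ + f₂₁ * y₂ + f₀₁ : B) * y₁ + (f₁₂ * y₁ + f₂₂ * y₂ + f₀₂) * y₂ =
          f₁₁ * (y₁ * y₁) + f₂₁ * (y₂ * y₁) + f₀₁ * y₁ + f₁₂ * (y₁ * y₂) + f₂₂ * (y₂ * y₂) +
            f₀₂ * y₂ := by noncomm_ring
      rw [e4, e3]
      push_cast
      rw [pow_one, pow_one, pow_two, pow_two, pow_zero, pow_zero, mul_one, one_mul]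
      noncomm_ring
    rw [e1]
    refine sub_mem (sub_mem (sub_mem hsum (add_mem (hy1L _) (hy2L _)))
      (add_mem (hay1L _) (hay2L _))) (AA_mul_L _ ?_)
    rw [D.mem_L_two_iff]; exact ⟨t₁, t₂, t₀, rfl⟩
  rw [D.mem_L_iff] at hcoef
  have e1 : D.lEquiv.symm (((f₁₁ + f₂₁ * D.q : A) : B) * (y₁ ^ 2 * y₂ ^ 0) +
      ((f₁₂ + f₂₁ * D.p : A) : B) * (y₁ ^ 1 * y₂ ^ 1) + (f₂₂ : B) * (y₁ ^ 0 * y₂ ^ 2)) =
      Finsupp.single (2, 0) (f₁₁ + f₂₁ * D.q) + Finsupp.single (1, 1) (f₁₂ + f₂₁ * D.p) +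
        Finsupp.single (0, 2) f₂₂ := by
    rw [LinearEquiv.symm_apply_eq, map_add, map_add, lEquiv_single, lEquiv_single, lEquiv_single]
  rw [e1] at hcoef
  have g1 := hcoef (2, 0) (by simp)
  have g2 := hcoef (1, 1) (by simp)
  have g3 := hcoef (0, 2) (by simp)
  simp only [Finsupp.add_apply, Finsupp.single_apply] at g1 g2 g3
  simp only [Prod.mk.injEq] at g1 g2 g3
  norm_num at g1 g2 g3
  refine ⟨f₂₁, ?_⟩
  intro c₁₁ c₂₁ c₁₂ c₂₂ hc1 hc2
  have hf11 : (f₁₁ : B) = - ((f₂₁ : B) * D.q) := by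
    have := congrArg (Subtype.val) g1
    push_cast at this
    exact eq_neg_of_add_eq_zero_left this
  have hf12 : (f₁₂ : B) = - ((f₂₁ : B) * D.p) := by
    have := congrArg (Subtype.val) g2
    push_cast at this
    exact eq_neg_of_add_eq_zero_left this
  have hf22 : (f₂₂ : B) = 0 := by rw [g3]; rfl
  have hcp : ∀ a : A, (a : B) * D.p = D.p * a := fun a => (D.p_comm _).symm
  have hcq : ∀ a : A, (a : B) * D.q = D.q * a := fun a => (D.q_comm _).symm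
  -- first comparison
  have k1 : y₁ * ((h₁₁ - (c₁₂ - c₁₁ * D.q) : A) : B) + y₂ * ((h₂₁ - (c₂₂ - c₂₁ * D.q) : A) : B)
      ∈ L A y₁ y₂ 1 := by
    have e2 : y₁ * ((h₁₁ - (c₁₂ - c₁₁ * D.q) : A) : B) +
        y₂ * ((h₂₁ - (c₂₂ - c₂₁ * D.q) : A) : B) =
        f₀₁ + ((f₂₁ : B) * y₂ - (y₁ * c₁₂ + y₂ * c₂₂)) -
          ((f₂₁ : B) * y₁ - (y₁ * c₁₁ + y₂ * c₂₁)) * D.q := by
      have e3 : y₁ * ((h₁₁ - (c₁₂ - c₁₁ * D.q) : A) : B) +
        y₂ * ((h₂₁ - (c₂₂ - c₂₁ * D.q) : A) : B) = (y₁ * h₁₁ + y₂ * h₂₁) -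
          (y₁ * c₁₂ + y₂ * c₂₂) + (y₁ * c₁₁ + y₂ * c₂₁) * D.q := by
        push_cast; noncomm_ring
      have e4 : (f₂₁ : B) * D.q * y₁ = f₂₁ * y₁ * D.q := by
        rw [mul_assoc, D.q_comm, mul_assoc]
      rw [e3, hf₁, hf11, neg_mul, e4]
      noncomm_ring
    rw [e2]
    refine sub_mem (add_mem ?_ hc2) (D.L_mul_AA _ hc1)
    rw [D.mem_L_one_iff]; exact f₀₁.2
  have k2 : y₁ * ((h₁₂ + c₁₁ * D.p : A) : B) + y₂ * ((h₂₂ + c₂₁ * D.p : A) : B)
      ∈ L A y₁ y₂ 1 := by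
    have e2 : y₁ * ((h₁₂ + c₁₁ * D.p : A) : B) + y₂ * ((h₂₂ + c₂₁ * D.p : A) : B) =
        f₀₂ - ((f₂₁ : B) * y₁ - (y₁ * c₁₁ + y₂ * c₂₁)) * D.p := by
      have e3 : y₁ * ((h₁₂ + c₁₁ * D.p : A) : B) + y₂ * ((h₂₂ + c₂₁ * D.p : A) : B) =
          (y₁ * h₁₂ + y₂ * h₂₂) + (y₁ * c₁₁ + y₂ * c₂₁) * D.p := by
        push_cast; noncomm_ring
      have e4 : (f₂₁ : B) * D.p * y₁ = f₂₁ * y₁ * D.p := by
        rw [mul_assoc, D.p_comm, mul_assoc]
      rw [e3, hf₂, hf12, hf22, neg_mul, e4]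
      noncomm_ring
    rw [e2]
    refine sub_mem ?_ (D.L_mul_AA _ hc1)
    rw [D.mem_L_one_iff]; exact f₀₂.2
  obtain ⟨k11, k12⟩ := D.right_indep k1
  obtain ⟨k21, k22⟩ := D.right_indep k2
  have l11 : h₁₁ = c₁₂ - c₁₁ * D.q := sub_eq_zero.1 k11
  have l12 : h₂₁ = c₂₂ - c₂₁ * D.q := sub_eq_zero.1 k12
  have l21 : h₁₂ = - (c₁₁ * D.p) := eq_neg_of_add_eq_zero_left k21
  have l22 : h₂₂ = - (c₂₁ * D.p) := eq_neg_of_add_eq_zero_left k22
  constructor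
  · rw [hh₁, l11, l21]
    have : ((c₁₂ - c₁₁ * D.q : A) : B) * y₁ + ((- (c₁₁ * D.p) : A) : B) * y₂ + h₁₀ -
        (c₁₁ * (- ((D.p : B) * y₂ + D.q * y₁)) + c₁₂ * y₁) = h₁₀ := by
      push_cast; noncomm_ring
    rw [this, D.mem_L_one_iff]
    exact h₁₀.2
  · rw [hh₂, l12, l22]
    have : ((c₂₂ - c₂₁ * D.q : A) : B) * y₁ + ((- (c₂₁ * D.p) : A) : B) * y₂ + h₂₀ -
        (c₂₁ * (- ((D.p : B) * y₂ + D.q * y₁)) + c₂₂ * y₁) = h₂₀ := by
      push_cast; noncomm_ring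
    rw [this, D.mem_L_one_iff]
    exact h₂₀.2


theorem E_zero : E A y₁ y₂ 0 = ⊥ := by
  rw [eq_bot_iff]
  intro b hb
  rw [mem_E, L_zero, Submodule.mem_bot] at hb
  rw [hb]; exact zero_mem _

include D in
theorem finrank_E [StrongRankCondition A] (n : ℕ) :
    Module.finrank A (E A y₁ y₂ n) = (idx n).card := by
  rw [Module.finrank, D.rank_E, Cardinal.toNat_natCast]

theorem w₁_eq [Nontrivial A] : D.w₁ = - ((D.p' : B) * (- ((D.p : B) * y₂ + D.q * y₁))) := by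
  obtain ⟨h1, h2⟩ := D.pp'
  have h3 : (D.q' : B) = - ((D.p' : B) * D.q) := eq_neg_of_add_eq_zero_right h2
  rw [w₁, h3]
  have : - ((D.p' : B) * (- ((D.p : B) * y₂ + D.q * y₁))) =
      ((D.p' : B) * D.p) * y₂ + ((D.p' : B) * D.q) * y₁ := by noncomm_ring
  rw [this, h1]
  noncomm_ring

/-- the engine applies to double extensions -/
noncomputable def core [IsDomain A] [StrongRankCondition A] : Core A where
  E := E A y₁ y₂
  y := ![y₁, y₂]
  w := ![D.w₁, D.w₂]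
  E_zero := E_zero
  E_one := fun b => by rw [mem_E, D.mem_L_one_iff]
  E_mono := fun n b hb => L_mono (Nat.le_succ n) hb
  exhaust := fun b => by
    refine ⟨((D.lEquiv.symm b).support.sup fun m => m.1 + m.2) + 1, ?_⟩
    rw [mem_E, D.mem_L_iff]
    intro m hm
    by_contra hne
    have h1 : m.1 + m.2 ≤ (D.lEquiv.symm b).support.sup fun m => m.1 + m.2 :=
      Finset.le_sup (f := fun m : ℕ × ℕ => m.1 + m.2) (Finsupp.mem_support_iff.2 hne)
    omega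
  finite_E := fun n => by rw [D.rank_E]; exact Cardinal.natCast_lt_aleph0
  finrank_E := fun n => by rw [D.finrank_E, D.finrank_E, card_idx_succ]
  mul_mem := fun m n a b ha hb => by
    rw [mem_E, ← D.F_eq_L] at ha hb ⊢
    exact D.mul_mem_F ha hb
  y_mem := fun i => by
    rw [mem_E, D.mem_L_two_iff]
    fin_cases i
    · exact y₁_mem_W
    · exact y₂_mem_W
  torsion_free := fun n a b ha h => by
    rw [mem_E, D.mem_L_iff] at h ⊢
    intro m hm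
    have h1 := h m hm
    have h2 : D.lEquiv.symm ((a : B) * b) = a • D.lEquiv.symm b := by
      rw [← map_smul]; rfl
    rw [h2, Finsupp.smul_apply, smul_eq_mul] at h1
    exact (mul_eq_zero.1 h1).resolve_left ha
  alpha := fun a => by
    obtain ⟨c₁₁, c₂₁, c₀₁, h1⟩ := D.ore_right₁ a
    obtain ⟨c₁₂, c₂₂, c₀₂, h2⟩ := D.ore_right₂ a
    refine ⟨![![c₁₁, c₁₂], ![c₂₁, c₂₂]], fun k => ?_⟩
    rw [mem_E, D.mem_L_one_iff, Fin.sum_univ_two]
    fin_cases k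
    · simp only [Matrix.cons_val_zero, Matrix.cons_val_one, Fin.zero_eta]
      rw [h1]; simp
    · simp only [Matrix.cons_val_zero, Matrix.cons_val_one, Fin.mk_one]
      rw [h2]; simp
  beta := fun a k => by
    obtain ⟨c₁₁, c₂₁, c₀₁, h1⟩ := D.ore_left₁ a
    obtain ⟨c₁₂, c₂₂, c₀₂, h2⟩ := D.ore_left₂ a
    fin_cases k
    · refine ⟨![c₁₁, c₂₁], ?_⟩
      rw [mem_E, D.mem_L_one_iff, Fin.sum_univ_two]
      simp only [Matrix.cons_val_zero, Matrix.cons_val_one, Fin.zero_eta]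
      rw [h1]; simp
    · refine ⟨![c₁₂, c₂₂], ?_⟩
      rw [mem_E, D.mem_L_one_iff, Fin.sum_univ_two]
      simp only [Matrix.cons_val_zero, Matrix.cons_val_one, Fin.mk_one]
      rw [h2]; simp
  left_indep := fun d h => by
    rw [mem_E, Fin.sum_univ_two] at h
    obtain ⟨h1, h2⟩ := D.left_indep h
    funext i
    fin_cases i
    · exact h1
    · exact h2
  nondeg := fun n r _ h => by
    have := h 1
    rw [mem_E] at this
    exact D.nondeg this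
  y_span_w := fun k => by
    obtain ⟨hp1, hp2⟩ := D.pp'
    have hpp : (D.p : B) * D.p' = 1 := by rw [D.p_comm, hp1]
    fin_cases k
    · refine ⟨![0, - D.p], ?_⟩
      rw [mem_E, D.mem_L_one_iff, Fin.sum_univ_two]
      simp only [Matrix.cons_val_zero, Matrix.cons_val_one, Fin.zero_eta]
      have : y₁ - (((0 : A) : B) * D.w₁ + ((- D.p : A) : B) * D.w₂) = 0 := by
        rw [w₂]; push_cast
        have : y₁ - (0 * D.w₁ + - (D.p : B) * - ((D.p' : B) * y₁)) =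
          y₁ - ((D.p : B) * D.p') * y₁ := by noncomm_ring
        rw [this, hpp, one_mul, sub_self]
      rw [this]; exact zero_mem _
    · refine ⟨![1, - (D.q' * D.p)], ?_⟩
      rw [mem_E, D.mem_L_one_iff, Fin.sum_univ_two]
      simp only [Matrix.cons_val_zero, Matrix.cons_val_one, Fin.mk_one]
      have : y₂ - (((1 : A) : B) * D.w₁ + ((- (D.q' * D.p) : A) : B) * D.w₂) = 0 := by
        rw [w₁, w₂]; push_cast
        have : y₂ - (1 * (y₂ - (D.q' : B) * y₁) + - ((D.q' : B) * D.p) * - ((D.p' : B) * y₁)) =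
          (D.q' : B) * y₁ - (D.q' : B) * ((D.p : B) * D.p') * y₁ := by noncomm_ring
        rw [this, hpp, mul_one, sub_self]
      rw [this]; exact zero_mem _
  w_mem := fun i => by
    rw [mem_E, D.mem_L_two_iff]
    fin_cases i
    · exact D.w₁_mem
    · exact D.w₂_mem
  exact := fun n u hu h => by
    rw [Fin.sum_univ_two] at h
    obtain ⟨r, hr, h1, h2⟩ := D.exact (hu 0) h
    refine ⟨r, hr, fun i => ?_⟩
    fin_cases i
    · exact h1
    · exact h2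
  twist := fun μ => by
    obtain ⟨l, hl⟩ := D.twist_aux μ
    obtain ⟨c₁₁, c₂₁, c₀₁, h1⟩ := D.ore_right₁ l
    obtain ⟨c₁₂, c₂₂, c₀₂, h2⟩ := D.ore_right₂ l
    have e1 : (l : B) * y₁ - (y₁ * c₁₁ + y₂ * c₂₁) ∈ L A y₁ y₂ 1 := by
      rw [D.mem_L_one_iff, h1]; simp
    have e2 : (l : B) * y₂ - (y₁ * c₁₂ + y₂ * c₂₂) ∈ L A y₁ y₂ 1 := by
      rw [D.mem_L_one_iff, h2]; simp
    obtain ⟨k1, k2⟩ := hl c₁₁ c₂₁ c₁₂ c₂₂ e1 e2
    have hcp : ∀ a : A, (a : B) * D.p' = D.p' * a := fun a => (D.p'_comm _).symm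
    refine ⟨l, ![![c₁₁, c₁₂], ![c₂₁, c₂₂]], fun k => ?_, fun m => ?_⟩
    · rw [mem_E, Fin.sum_univ_two]
      fin_cases k
      · exact e1
      · exact e2
    · rw [mem_E, Fin.sum_univ_two]
      fin_cases m
      · simp only [Matrix.cons_val_zero, Matrix.cons_val_one, Fin.zero_eta]
        have := neg_mem (AA_mul_L D.p' k1)
        convert this using 1
        have e3 : (c₁₁ : B) * D.w₁ + c₁₂ * D.w₂ =
            - ((D.p' : B) * (c₁₁ * (- ((D.p : B) * y₂ + D.q * y₁)) + c₁₂ * y₁)) := by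
          rw [D.w₁_eq, w₂]
          have e4 : (c₁₁ : B) * -((D.p' : B) * -((D.p : B) * y₂ + D.q * y₁)) +
              c₁₂ * -((D.p' : B) * y₁) =
              (c₁₁ : B) * D.p' * ((D.p : B) * y₂ + D.q * y₁) - (c₁₂ : B) * D.p' * y₁ := by
            noncomm_ring
          rw [e4, hcp, hcp]
          noncomm_ring
        rw [e3, D.w₁_eq]
        noncomm_ring
      · simp only [Matrix.cons_val_zero, Matrix.cons_val_one, Fin.mk_one]
        have := neg_mem (AA_mul_L D.p' k2)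
        convert this using 1
        have e3 : (c₂₁ : B) * D.w₁ + c₂₂ * D.w₂ =
            - ((D.p' : B) * (c₂₁ * (- ((D.p : B) * y₂ + D.q * y₁)) + c₂₂ * y₁)) := by
          rw [D.w₁_eq, w₂]
          have e4 : (c₂₁ : B) * -((D.p' : B) * -((D.p : B) * y₂ + D.q * y₁)) +
              c₂₂ * -((D.p' : B) * y₁) =
              (c₂₁ : B) * D.p' * ((D.p : B) * y₂ + D.q * y₁) - (c₂₂ : B) * D.p' * y₁ := by
            noncomm_ring
          rw [e4, hcp, hcp]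
          noncomm_ring
        rw [e3, w₂]
        noncomm_ring

include D in
theorem noZeroDivisors [IsDomain A] (h : LeftOre A) : IsDomain B ∧ LeftOre B := by
  have := strongRankCondition_of_leftOre h
  have := hasRankNullity_of_leftOre.{u, u} A h
  have hnt : Nontrivial B := ⟨⟨0, 1, fun h01 => by
    have : (0 : A) = 1 := Subtype.ext h01
    exact zero_ne_one this⟩⟩
  refine ⟨?_, D.core.leftOre⟩
  have : NoZeroDivisors B := ⟨fun {a b} hab => by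
    by_contra hcon
    push Not at hcon
    exact D.core.mul_ne_zero' hcon.1 hcon.2 hab⟩
  exact NoZeroDivisors.to_isDomain B

end DE

end Run7.h323
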