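import Pool.Agent.Run7.h323.DE

/-!
Right handed version through the opposite ring.
-/

namespace Run7.h323

open MulOpposite

universe u

/-- Right Ore condition (for nonzero elements). -/
def RightOre (R : Type u) [Ring R] : Prop :=
  ∀ a b : R, b ≠ 0 → ∃ a' b' : R, b' ≠ 0 ∧ a * b' = b * a'

namespace DE

variable {B : Type u} [Ring B] {A : Subring B} {y₁ y₂ : B} (D : DE A y₁ y₂)

/-- element of the opposite subring -/
def oo (a : A) : A.op := ⟨op (a : B), by simp⟩

theorem coe_oo (a : A) : ((oo a : A.op) : Bᵐᵒᵖ) = op (a : B) := rfl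

/-- back -/
def uo (a : A.op) : A := ⟨unop (a : Bᵐᵒᵖ), a.2⟩

theorem coe_uo (a : A.op) : ((uo a : A) : B) = unop (a : Bᵐᵒᵖ) := rfl

theorem oo_uo (a : A.op) : oo (uo a) = a := rfl
theorem uo_oo (a : A) : uo (oo a) = a := rfl
theorem uo_zero : uo (0 : A.op) = 0 := rfl

/-- additive equivalence of coefficients -/
def addE : A ≃+ A.op where
  toFun := oo
  invFun := uo
  left_inv := uo_oo
  right_inv := oo_uo
  map_add' _ _ := rfl

/-- the equivalence on coordinates -/
noncomputable def coordE : (ℕ × ℕ →₀ A.op) ≃ (ℕ × ℕ →₀ A) :=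
  (Finsupp.mapRange.addEquiv addE.symm).toEquiv.trans (Finsupp.domCongr (M := A) (Equiv.prodComm ℕ ℕ)).toEquiv

theorem coordE_apply (c : ℕ × ℕ →₀ A.op) (m : ℕ × ℕ) : coordE c m = uo (c m.swap) := rfl

/-- the opposite double extension -/
def opp : DE A.op (op y₁) (op y₂) where
  p := oo D.p'
  q := oo D.q'
  p' := oo D.p
  q' := oo D.q
  p_comm := fun b => by
    rw [coe_oo, ← op_unop b, ← op_mul, ← op_mul, D.p'_comm]
  q_comm := fun b => by
    rw [coe_oo, ← op_unop b, ← op_mul, ← op_mul, D.q'_comm]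
  p'_comm := fun b => by
    rw [coe_oo, ← op_unop b, ← op_mul, ← op_mul, D.p_comm]
  q'_comm := fun b => by
    rw [coe_oo, ← op_unop b, ← op_mul, ← op_mul, D.q_comm]
  left_basis := by
    have h : (fun c : ℕ × ℕ →₀ A.op => c.sum fun m a => (a : Bᵐᵒᵖ) * (op y₁ ^ m.1 * op y₂ ^ m.2)) =
        op ∘ (fun c : ℕ × ℕ →₀ A => c.sum fun m a => y₂ ^ m.1 * y₁ ^ m.2 * (a : B)) ∘ coordE := by
      funext c
      simp only [Function.comp_apply]
      rw [← MulOpposite.opAddEquiv_apply, map_finsuppSum]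
      have h1 : coordE c = Finsupp.equivMapDomain (Equiv.prodComm ℕ ℕ)
        (Finsupp.mapRange uo uo_zero c) := by
        ext m; rfl
      rw [h1, Finsupp.sum_equivMapDomain, Finsupp.sum_mapRange_index]
      · refine Finsupp.sum_congr (fun m _ => ?_)
        simp only [Equiv.prodComm_apply, Prod.fst_swap, Prod.snd_swap, MulOpposite.opAddEquiv_apply,
          op_mul, op_pow, coe_uo, op_unop]
      · intro m; simp
    rw [h]
    exact (MulOpposite.op_bijective).comp (D.right_basis.comp coordE.bijective)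
  right_basis := by
    have h : (fun c : ℕ × ℕ →₀ A.op => c.sum fun m a => op y₂ ^ m.1 * op y₁ ^ m.2 * (a : Bᵐᵒᵖ)) =
        op ∘ (fun c : ℕ × ℕ →₀ A => c.sum fun m a => (a : B) * (y₁ ^ m.1 * y₂ ^ m.2)) ∘ coordE := by
      funext c
      simp only [Function.comp_apply]
      rw [← MulOpposite.opAddEquiv_apply, map_finsuppSum]
      have h1 : coordE c = Finsupp.equivMapDomain (Equiv.prodComm ℕ ℕ)
        (Finsupp.mapRange uo uo_zero c) := by
        ext m; rfl
      rw [h1, Finsupp.sum_equivMapDomain, Finsupp.sum_mapRange_index]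
      · refine Finsupp.sum_congr (fun m _ => ?_)
        simp only [Equiv.prodComm_apply, Prod.fst_swap, Prod.snd_swap, MulOpposite.opAddEquiv_apply,
          op_mul, op_pow, coe_uo, op_unop]
      · intro m; simp
    rw [h]
    exact (MulOpposite.op_bijective).comp (D.left_basis.comp coordE.bijective)
  rel := by
    obtain ⟨t₁, t₂, t₀, h⟩ := D.rel'
    refine ⟨oo t₁, oo t₂, oo t₀, ?_⟩
    have h2 : y₁ * y₂ = (y₂ * y₁) * (D.p' : B) + (y₁ * y₁) * D.q' + y₁ * t₁ + y₂ * t₂ + t₀ := by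
      rw [← D.p'_comm, ← D.q'_comm]; exact h
    exact congrArg op h2
  rel' := by
    obtain ⟨t₁, t₂, t₀, h⟩ := D.rel
    refine ⟨oo t₁, oo t₂, oo t₀, ?_⟩
    have h2 : y₂ * y₁ = (y₁ * y₂) * (D.p : B) + (y₁ * y₁) * D.q + t₁ * y₁ + t₂ * y₂ + t₀ := by
      rw [← D.p_comm, ← D.q_comm]; exact h
    exact congrArg op h2
  ore_left₁ := fun a => by
    obtain ⟨b₁, b₂, b₀, h⟩ := D.ore_right₁ (uo a)
    refine ⟨oo b₁, oo b₂, oo b₀, ?_⟩
    exact congrArg op h
  ore_left₂ := fun a => by
    obtain ⟨b₁, b₂, b₀, h⟩ := D.ore_right₂ (uo a)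
    refine ⟨oo b₁, oo b₂, oo b₀, ?_⟩
    exact congrArg op h
  ore_right₁ := fun a => by
    obtain ⟨b₁, b₂, b₀, h⟩ := D.ore_left₁ (uo a)
    refine ⟨oo b₁, oo b₂, oo b₀, ?_⟩
    exact congrArg op h
  ore_right₂ := fun a => by
    obtain ⟨b₁, b₂, b₀, h⟩ := D.ore_left₂ (uo a)
    refine ⟨oo b₁, oo b₂, oo b₀, ?_⟩
    exact congrArg op h

include D in
theorem right_version [IsDomain A] (h : RightOre A) : IsDomain B ∧ RightOre B := by
  have hnt : Nontrivial A.op := ⟨⟨0, 1, fun h01 => by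
    have : (0 : A) = 1 := congrArg uo h01
    exact zero_ne_one this⟩⟩
  have hnz : NoZeroDivisors A.op := ⟨fun {a b} hab => by
    have : uo b * uo a = 0 := congrArg uo hab
    rcases mul_eq_zero.1 this with h1 | h1
    · exact Or.inr (congrArg oo h1)
    · exact Or.inl (congrArg oo h1)⟩
  have hdom : IsDomain A.op := NoZeroDivisors.to_isDomain _
  have hore : LeftOre A.op := by
    intro a b hb
    have hb' : uo b ≠ 0 := fun h0 => hb (congrArg oo h0)
    obtain ⟨a', b', h1, h2⟩ := h (uo a) (uo b) hb'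
    exact ⟨oo a', oo b', fun h0 => h1 (congrArg uo h0), congrArg oo h2⟩
  obtain ⟨h1, h2⟩ := D.opp.noZeroDivisors hore
  constructor
  · have hnB : Nontrivial B := ⟨⟨0, 1, fun h01 => by
      have : (0 : A) = 1 := Subtype.ext h01
      exact zero_ne_one this⟩⟩
    have : NoZeroDivisors B := ⟨fun {a b} hab => by
      have h3 : op b * op a = 0 := congrArg op hab
      rcases mul_eq_zero.1 h3 with h4 | h4
      · exact Or.inr (congrArg unop h4)
      · exact Or.inl (congrArg unop h4)⟩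
    exact NoZeroDivisors.to_isDomain B
  · intro a b hb
    have hb' : op b ≠ 0 := fun h0 => hb (congrArg unop h0)
    obtain ⟨a', b', h3, h4⟩ := h2 (op a) (op b) hb'
    exact ⟨unop a', unop b', fun h0 => h3 (congrArg op h0), congrArg unop h4⟩

end DE

end Run7.h323
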