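import Mathlib

/-!
Rank theory of modules over a left Ore domain: the strong rank condition and rank-nullity.
-/

namespace Run7.h323

open Cardinal Module Submodule

universe u v

/-- Left Ore condition (for nonzero elements). -/
def LeftOre (R : Type u) [Ring R] : Prop :=
  ∀ a b : R, b ≠ 0 → ∃ a' b' : R, b' ≠ 0 ∧ b' * a = a' * b

section

variable {R : Type u} [Ring R] [IsDomain R]

theorem dependent_of_leftOre (h : LeftOre R) :
    ∀ (n : ℕ) (v : Fin (n + 1) → (Fin n → R)),
      ∃ x : Fin (n + 1) → R, x ≠ 0 ∧ ∑ i, x i • v i = 0 := by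
  intro n
  induction n with
  | zero =>
    intro v
    refine ⟨fun _ => 1, ?_, Subsingleton.elim _ _⟩
    intro hx
    exact one_ne_zero (congrFun hx 0)
  | succ n ih =>
    intro v
    by_cases hz : ∀ i, v i (Fin.last n) = 0
    · obtain ⟨x, hx, hs⟩ := ih (fun i => fun j => v i.castSucc j.castSucc)
      refine ⟨Fin.snoc x 0, ?_, ?_⟩
      · intro h0
        apply hx
        funext i
        have := congrFun h0 i.castSucc
        simpa using this
      · rw [Fin.sum_univ_castSucc]
        simp only [Fin.snoc_castSucc, Fin.snoc_last, zero_smul, add_zero]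
        funext j
        refine Fin.lastCases ?_ (fun j => ?_) j
        · simp [Finset.sum_apply, hz]
        · have := congrFun hs j
          simpa [Finset.sum_apply] using this
    · push Not at hz
      obtain ⟨i0, hi0⟩ := hz
      choose b a ha hab using fun j : Fin (n + 1) => h (v (i0.succAbove j) (Fin.last n))
        (v i0 (Fin.last n)) hi0
      obtain ⟨x, hx, hs⟩ := ih (fun j => fun k =>
        a j * v (i0.succAbove j) k.castSucc - b j * v i0 k.castSucc)
      refine ⟨i0.insertNth (-∑ j, x j * b j) (fun j => x j * a j), ?_, ?_⟩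
      · intro h0
        apply hx
        funext j
        have := congrFun h0 (i0.succAbove j)
        rw [Fin.insertNth_apply_succAbove] at this
        simpa [ha j] using this
      · rw [Fin.sum_univ_succAbove _ i0]
        simp only [Fin.insertNth_apply_same, Fin.insertNth_apply_succAbove]
        funext k
        simp only [Pi.add_apply, Pi.smul_apply, Finset.sum_apply, smul_eq_mul, Pi.zero_apply]
        refine Fin.lastCases ?_ (fun k => ?_) k
        · rw [neg_mul, Finset.sum_mul, ← Finset.sum_neg_distrib, ← Finset.sum_add_distrib]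
          apply Finset.sum_eq_zero
          intro j _
          rw [mul_assoc (x j) (a j), hab j, mul_assoc (x j) (b j)]
          abel
        · have := congrFun hs k
          simp only [Finset.sum_apply, Pi.smul_apply, smul_eq_mul, Pi.zero_apply] at this
          rw [neg_mul, Finset.sum_mul, ← Finset.sum_neg_distrib, ← Finset.sum_add_distrib]
          rw [← this]
          apply Finset.sum_congr rfl
          intro j _
          rw [mul_sub, mul_assoc, mul_assoc]
          abel

theorem strongRankCondition_of_leftOre (h : LeftOre R) : StrongRankCondition R := by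
  rw [strongRankCondition_iff_succ]
  intro n f hf
  obtain ⟨x, hx, hs⟩ := dependent_of_leftOre h n (fun i => f (Pi.single i 1))
  apply hx
  apply hf
  rw [map_zero, ← hs]
  have hx' : x = ∑ i, x i • (Pi.single i (1 : R) : Fin (n + 1) → R) := by
    funext j
    rw [Finset.sum_apply, Finset.sum_eq_single j]
    · simp
    · intro i _ hij
      simp [Pi.single_apply, hij.symm]
    · simp
  conv_lhs => rw [hx']
  rw [map_sum]
  apply Finset.sum_congr rfl
  intro i _
  rw [map_smul]

variable {M : Type v} [AddCommGroup M] [Module R M]

/-- If `s` is independent and every element has a nonzero multiple in the span of `s`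
then the rank is the cardinality of `s`. -/
theorem rank_eq_of_essential [StrongRankCondition R] {s : Set M} (hs : LinearIndepOn R id s)
    (ht : ∀ m : M, ∃ c : R, c ≠ 0 ∧ c • m ∈ span R s) : Module.rank R M = #s := by
  apply le_antisymm
  · rw [Module.rank]
    apply ciSup_le'
    intro ⟨t, ht'⟩
    choose c hc hcm using ht
    let w : t → span R s := fun m => ⟨c m • (m : M), hcm m⟩
    have hw : LinearIndependent R w := by
      rw [linearIndependent_iff']
      intro F g hg i hi
      rw [LinearIndepOn, linearIndependent_iff'] at ht'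
      have h1 : ∑ i ∈ F, (g i * c i) • ((i : M)) = 0 := by
        have h2 := congrArg (span R s).subtype hg
        rw [map_sum, map_zero] at h2
        rw [← h2]
        apply Finset.sum_congr rfl
        intro j _
        simp [w, mul_smul]
      have h3 := ht' F (fun i => g i * c i) h1 i hi
      exact (mul_eq_zero.mp h3).resolve_right (hc i)
    have h4 := hw.cardinal_le_rank
    rwa [rank_span_set hs] at h4
  · exact hs.linearIndependent.cardinal_le_rank

theorem exists_essential (R : Type u) [Ring R] [IsDomain R] (M : Type v) [AddCommGroup M]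
    [Module R M] :
    ∃ s : Set M, LinearIndepOn R id s ∧ ∀ m : M, ∃ c : R, c ≠ 0 ∧ c • m ∈ span R s := by
  obtain ⟨s, hs, hm⟩ := exists_maximal_linearIndepOn R (id : M → M)
  refine ⟨s, hs, fun m => ?_⟩
  by_cases hms : m ∈ s
  · exact ⟨1, one_ne_zero, smul_mem _ _ (subset_span hms)⟩
  · obtain ⟨a, ha, ha'⟩ := hm m hms
    refine ⟨a, ha, ?_⟩
    simpa using ha'

theorem rank_quotient_add_rank_of_leftOre [StrongRankCondition R] (N : Submodule R M) :
    Module.rank R (M ⧸ N) + Module.rank R N = Module.rank R M := by
  obtain ⟨s, hs, hs'⟩ := exists_essential R N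
  obtain ⟨t, ht, ht'⟩ := exists_essential R (M ⧸ N)
  rw [rank_eq_of_essential hs hs', rank_eq_of_essential ht ht']
  have hsurj := N.mkQ_surjective
  choose l hl using hsurj
  have hli : LinearIndependent R (Sum.elim (fun i : s => ((i : N) : M)) (fun j : t => l (j : M ⧸ N))) := by
    apply LinearIndependent.sumElim_of_quotient (M' := N) hs.linearIndependent
    have : (Submodule.Quotient.mk (p := N) ∘ fun j : t => l (j : M ⧸ N)) = fun j : t => (j : M ⧸ N) := by
      funext j
      exact hl j
    rw [this]
    exact ht.linearIndependent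
  set w : s ⊕ t → M := Sum.elim (fun i : s => ((i : N) : M)) (fun j : t => l (j : M ⧸ N)) with hw
  have key := rank_eq_of_essential (R := R) (M := M) (s := Set.range w) hli.linearIndepOn_id ?_
  · rw [key, Cardinal.mk_range_eq _ hli.injective, Cardinal.mk_sum]
    simp [add_comm]
  · intro m
    obtain ⟨c, hc, hcm⟩ := ht' (N.mkQ m)
    -- c • m ∈ span of lifts + N
    have h1 : ∃ m' ∈ span R (Set.range w), c • m - m' ∈ N := by
      have h2 : c • N.mkQ m ∈ (span R (Set.range w)).map N.mkQ := by
        have h3 : span R t ≤ (span R (Set.range w)).map N.mkQ := by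
          rw [span_le]
          intro x hx
          refine ⟨l x, subset_span ⟨Sum.inr ⟨x, hx⟩, rfl⟩, hl x⟩
        exact h3 hcm
      obtain ⟨m', hm', he⟩ := h2
      refine ⟨m', hm', ?_⟩
      rw [← map_smul] at he
      have := (Submodule.Quotient.eq N).mp he
      have h5 := N.neg_mem this
      simpa using h5
    obtain ⟨m', hm', hN⟩ := h1
    obtain ⟨d, hd, hdm⟩ := hs' ⟨_, hN⟩
    refine ⟨d * c, mul_ne_zero hd hc, ?_⟩
    have h6 : d • (c • m - m') ∈ span R (Set.range w) := by
      have h7 : (span R s).map N.subtype ≤ span R (Set.range w) := by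
        rw [map_span, span_le]
        rintro _ ⟨x, hx, rfl⟩
        exact subset_span ⟨Sum.inl ⟨x, hx⟩, rfl⟩
      exact h7 ⟨_, hdm, rfl⟩
    have h8 : (d * c) • m = d • (c • m - m') + d • m' := by
      rw [smul_sub, mul_smul]; abel
    rw [h8]
    exact add_mem h6 (smul_mem _ _ hm')

theorem hasRankNullity_of_leftOre (R : Type u) [Ring R] [IsDomain R] (h : LeftOre R) :
    HasRankNullity.{v} R := by
  have := strongRankCondition_of_leftOre h
  refine ⟨fun M _ _ => ?_, fun N => rank_quotient_add_rank_of_leftOre N⟩
  obtain ⟨s, hs, hs'⟩ := exists_essential R M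
  exact ⟨s, (rank_eq_of_essential hs hs').symm, hs⟩

end

end Run7.h323
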